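import Mathlib
import Pool.Agent.TH551.SU.WT

set_option autoImplicit false

/-!
# Exact weights
-/

namespace Pool.Agent.Q51.VX

open Filter Topology Pool.Agent.TH932.Germs Pool.Agent.TH551.SU Pool.Agent.TH551.SU.WT

theorem mon_nat {r : ℕ} {u : Fin r → GG} (hu : ∀ j, u j ≠ 0) (α β : Fin r → ℕ) :
    mon u (fun j => (α j : ℤ) - (β j : ℤ)) = (∏ j, u j ^ (α j)) / (∏ j, u j ^ (β j)) := by
  rw [mon_sub hu]
  unfold mon
  simp only [zpow_natCast]

/-- weights whose coincidences, for monomials with exponents at most `D`, are exactly the relations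
modulo the negligible field -/
theorem wt2 (L : ℕ → ℝ) (hL : Tendsto L atTop atTop) (r : ℕ) (u : Fin r → GG)
    (hu : ∀ j, u j ≠ 0) (D : ℕ) : ∃ l : Fin r → ℕ,
      (∀ α β : Fin r → ℕ, ∑ j, α j = ∑ j, β j →
        (∏ j, u j ^ (α j)) / (∏ j, u j ^ (β j)) ∈ KK L hL → ∑ j, α j * l j = ∑ j, β j * l j) ∧
      ∀ α β : Fin r → ℕ, (∀ j, α j ≤ D) → (∀ j, β j ≤ D) → ∑ j, α j * l j = ∑ j, β j * l j →
        ∑ j, α j = ∑ j, β j ∧ (∏ j, u j ^ (α j)) / (∏ j, u j ^ (β j)) ∈ KK L hL := by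
  classical
  -- the functional
  obtain ⟨f, hf⟩ := Module.exists_dual_forall_apply_ne_zero (K := ℚ)
    (M := (Fin r → ℚ) ⧸ Wsp hL u)
    (fun p : {p : (Fin r → Fin (D + 1)) × (Fin r → Fin (D + 1)) //
      (∏ j, u j ^ (p.1 j : ℕ)) / (∏ j, u j ^ (p.2 j : ℕ)) ∉ KK L hL} =>
      (Wsp hL u).mkQ (cst fun j => ((p.1.1 j : ℕ) : ℤ) - ((p.1.2 j : ℕ) : ℤ)))
    (by
      rintro ⟨⟨α, β⟩, hp⟩ h0
      rw [Submodule.mkQ_apply, Submodule.Quotient.mk_eq_zero] at h0
      have h1 := Wsp_int hL hu h0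
      simp only at h1
      rw [mon_nat hu (fun j => (α j : ℕ)) (fun j => (β j : ℕ))] at h1
      exact hp h1)
  obtain ⟨lam, hlam⟩ : ∃ lam : (Fin r → ℚ) →ₗ[ℚ] ℚ, lam = f.comp (Wsp hL u).mkQ := ⟨_, rfl⟩
  have hlam0 : ∀ x ∈ Wsp hL u, lam x = 0 := by
    intro x hx
    rw [hlam, LinearMap.comp_apply, Submodule.mkQ_apply, (Submodule.Quotient.mk_eq_zero _).2 hx,
      map_zero]
  obtain ⟨q, hq⟩ : ∃ q : Fin r → ℚ, q = fun j => lam (Pi.single j 1) := ⟨_, rfl⟩
  have hlamx : ∀ x : Fin r → ℚ, lam x = ∑ j, x j * q j := by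
    intro x
    rw [LinearMap.pi_apply_eq_sum_univ lam x]
    refine Finset.sum_congr rfl fun j _ => ?_
    rw [smul_eq_mul, hq]
    congr 2
    funext i
    rw [Pi.single_apply]
    simp [eq_comm]
  -- common denominator
  obtain ⟨N, hN⟩ : ∃ N : ℕ, N = ∏ j, (q j).den := ⟨_, rfl⟩
  have hN0 : N ≠ 0 := by
    rw [hN]
    exact Finset.prod_ne_zero_iff.2 fun j _ => (q j).den_ne_zero
  have hN0' : (N : ℚ) ≠ 0 := by exact_mod_cast hN0
  have hc : ∀ j, ∃ c : ℤ, (c : ℚ) = N * q j := by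
    intro j
    obtain ⟨e, he⟩ : (q j).den ∣ N := by
      rw [hN]
      exact Finset.dvd_prod_of_mem _ (Finset.mem_univ j)
    refine ⟨e * (q j).num, ?_⟩
    rw [he]
    push_cast
    have h2 : ((q j).num : ℚ) = q j * (q j).den := (Rat.mul_den_eq_num (q j)).symm
    rw [h2]
    ring
  choose c hc using hc
  obtain ⟨S, hS⟩ : ∃ S : ℕ, S = ∑ j, (c j).natAbs := ⟨_, rfl⟩
  obtain ⟨T, hT⟩ : ∃ T : ℕ, T = (D + 1) * S + 1 := ⟨_, rfl⟩
  have hcS : ∀ j, (c j).natAbs ≤ S := by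
    intro j
    rw [hS]
    exact Finset.single_le_sum (f := fun j => (c j).natAbs) (fun _ _ => Nat.zero_le _)
      (Finset.mem_univ j)
  have hST : S ≤ T := by
    rw [hT]
    nlinarith
  have hcT : ∀ j, 0 ≤ c j + T := by
    intro j
    have h1 := hcS j
    omega
  have hl : ∀ j, (((c j + (T : ℤ)).toNat : ℕ) : ℤ) = c j + T := fun j =>
    Int.toNat_of_nonneg (hcT j)
  -- the weight of a vector
  have hw : ∀ α : Fin r → ℕ, ((∑ j, α j * (c j + T).toNat : ℕ) : ℤ) =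
      ∑ j, (α j : ℤ) * c j + (∑ j, (α j : ℤ)) * T := by
    intro α
    push_cast
    rw [Finset.sum_mul, ← Finset.sum_add_distrib]
    refine Finset.sum_congr rfl fun j _ => ?_
    rw [hl j]
    ring
  have hcl : ∀ α β : Fin r → ℕ, ((∑ j, ((α j : ℤ) - (β j : ℤ)) * c j : ℤ) : ℚ) =
      N * lam (cst fun j => (α j : ℤ) - (β j : ℤ)) := by
    intro α β
    rw [hlamx]
    push_cast
    rw [Finset.mul_sum]
    refine Finset.sum_congr rfl fun j _ => ?_
    rw [hc j]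
    unfold cst
    push_cast
    ring
  refine ⟨fun j => (c j + T).toNat, ?_, ?_⟩
  · intro α β hαβ h
    have h1 : (cst fun j => (α j : ℤ) - (β j : ℤ)) ∈ Wsp hL u := by
      apply Submodule.subset_span
      refine ⟨_, rfl, ?_⟩
      rw [mon_nat hu]
      exact h
    have h2 := hcl α β
    rw [hlam0 _ h1, mul_zero] at h2
    have h3 : ∑ j, ((α j : ℤ) - (β j : ℤ)) * c j = 0 := by exact_mod_cast h2
    have h4 : ∑ j, (α j : ℤ) * c j = ∑ j, (β j : ℤ) * c j := by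
      simp only [sub_mul, Finset.sum_sub_distrib] at h3
      linarith
    have h5 : ∑ j, (α j : ℤ) = ∑ j, (β j : ℤ) := by exact_mod_cast hαβ
    have h6 := hw α
    have h7 := hw β
    rw [h4, h5, ← h7] at h6
    exact_mod_cast h6
  · intro α β hα hβ hαβ
    have h6 := hw α
    have h7 := hw β
    have h8 : ∑ j, (α j : ℤ) * c j + (∑ j, (α j : ℤ)) * T =
        ∑ j, (β j : ℤ) * c j + (∑ j, (β j : ℤ)) * T := by
      rw [← h6, ← h7]
      exact_mod_cast hαβ
    have h9 : |∑ j, ((α j : ℤ) - (β j : ℤ)) * c j| ≤ D * S := by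
      refine (Finset.abs_sum_le_sum_abs _ _).trans ?_
      rw [hS]
      push_cast
      rw [Finset.mul_sum]
      refine Finset.sum_le_sum fun j _ => ?_
      rw [abs_mul]
      have h1 : |(α j : ℤ) - (β j : ℤ)| ≤ D := by
        have := hα j
        have := hβ j
        rw [abs_le]
        constructor <;> omega
      exact mul_le_mul_of_nonneg_right h1 (abs_nonneg _)
    have h10 : ∑ j, ((α j : ℤ) - (β j : ℤ)) * c j =
        (∑ j, (β j : ℤ) - ∑ j, (α j : ℤ)) * T := by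
      simp only [sub_mul, Finset.sum_sub_distrib]
      linarith
    have hT' : (T : ℤ) = (D + 1) * S + 1 := by
      rw [hT]
      push_cast
      ring
    have h11 : ∑ j, (β j : ℤ) - ∑ j, (α j : ℤ) = 0 := by
      by_contra hne
      have h12 : 1 ≤ |∑ j, (β j : ℤ) - ∑ j, (α j : ℤ)| := Int.one_le_abs hne
      rw [h10, abs_mul, Nat.abs_cast] at h9
      have hS0 : (0 : ℤ) ≤ S := Nat.cast_nonneg _
      have hT0 : (0 : ℤ) ≤ T := Nat.cast_nonneg _
      have h13 : (T : ℤ) ≤ D * S := by nlinarith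
      rw [hT'] at h13
      nlinarith
    have hdeg : ∑ j, α j = ∑ j, β j := by
      have : ∑ j, (α j : ℤ) = ∑ j, (β j : ℤ) := by linarith
      exact_mod_cast this
    refine ⟨hdeg, ?_⟩
    by_contra hcon
    rw [h11, zero_mul] at h10
    have h12 := hcl α β
    rw [h10, Int.cast_zero] at h12
    have h13 : lam (cst fun j => (α j : ℤ) - (β j : ℤ)) = 0 :=
      (mul_eq_zero.1 h12.symm).resolve_left hN0'
    refine hf ⟨(fun j => ⟨α j, Nat.lt_succ_of_le (hα j)⟩, fun j => ⟨β j, Nat.lt_succ_of_le (hβ j)⟩),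
      hcon⟩ ?_
    rw [hlam] at h13
    exact h13

end Pool.Agent.Q51.VX
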