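import Mathlib
import Pool.Agent.Q51.VX.Wt2
import Pool.Agent.Y724.Vj.GT
import Pool.Agent.Y724.Vj.Seq
import Pool.Agent.Y724.Vj.Main
import Pool.Agent.TH551.SU.CRV
import Pool.Agent.TH551.SU.CS

set_option autoImplicit false

/-!
# The inequality for germs of points
-/

namespace Pool.Agent.Q51.VX

open MvPolynomial Filter Topology Pool.Agent.TH932.Germs Pool.Agent.TH551.SU
open Pool.Agent.TH551.SU.SUI Pool.Agent.Y724.Vj Pool.Agent.TH551.SU.CRV
open Pool.Agent.H533R3.SL

variable {L : ℕ → ℝ}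

/-- valuations and limits -/
theorem lim_le (hL : Tendsto L atTop atTop) (w : AbsoluteValue ℚ ℝ) {a b : ℕ → ℚ}
    (ha : gm a ≠ 0) (hb : gm b ≠ 0)
    (h : (OO L hL w).valuation (gm a) ≤ (OO L hL w).valuation (gm b)) {s t : ℝ}
    (hs : Tendsto (fun n => Real.log (w (a n)) / L n) (UU : Filter ℕ) (𝓝 s))
    (ht : Tendsto (fun n => Real.log (w (b n)) / L n) (UU : Filter ℕ) (𝓝 t)) : s ≤ t := by
  refine le_of_forall_pos_le_add fun ε hε => ?_
  refine le_of_tendsto_of_tendsto hs (ht.add_const ε) ?_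
  filter_upwards [val_le hL w h ε hε, gm_ne_zero.1 ha, gm_ne_zero.1 hb,
    ev_of_atTop (hL.eventually_gt_atTop 0)] with n h1 h2 h3 h4
  have h5 := w.pos h2
  have h6 := w.pos h3
  have h7 := Real.log_le_log h5 h1
  rw [Real.log_mul h6.ne' (Real.exp_pos _).ne', Real.log_exp] at h7
  rw [div_le_iff₀ h4, add_mul, div_mul_cancel₀ _ h4.ne']
  exact h7

theorem lim_eq (hL : Tendsto L atTop atTop) {w : AbsoluteValue ℚ ℝ} (hw : Pl w) {a b : ℕ → ℚ}
    (ha : gm a ≠ 0) (hb : gm b ≠ 0) (h : gm a / gm b ∈ KK L hL) {s t : ℝ}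
    (hs : Tendsto (fun n => Real.log (w (a n)) / L n) (UU : Filter ℕ) (𝓝 s))
    (ht : Tendsto (fun n => Real.log (w (b n)) / L n) (UU : Filter ℕ) (𝓝 t)) : s = t := by
  have h1 := val_eq_of_div hL hw hb ha h
  exact le_antisymm (lim_le hL w ha hb h1.le hs ht) (lim_le hL w hb ha h1.ge ht hs)

/-- the inequality for weights -/
def TypeIneq {n q : ℕ} (κ : ℝ) (D : ℕ) (d : Fin q → ℕ) (Z : Finset (Fin q))
    (FQ : Fin q → MvPolynomial (Fin (n + 1)) ℚ) (r : ℕ) : Prop :=
  ∀ (c : Fin r → Fin (n + 1) → GG) (l : Fin r → ℕ),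
    (∀ i ∈ Z, aeval (cur c l) (FQ i) = 0) → (∀ i, i ∉ Z → aeval (cur c l) (FQ i) ≠ 0) →
    ∀ (M : ℕ) (β : Fin M → Fin r → ℝ), (∀ j, ∑ v, β v j = 0) →
    (∀ α α' : Fin r → ℕ, (∀ j, α j ≤ D) → (∀ j, α' j ≤ D) →
      ∑ j, α j * l j = ∑ j, α' j * l j →
      ∀ v, ∑ j, (α j : ℝ) * β v j = ∑ j, (α' j : ℝ) * β v j) →
    ∀ jj : Fin M → Fin r, (∀ v, ∃ m, (cur c l m).coeff (l (jj v)) ≠ 0) →
    ∀ B : Fin M → Fin q → ℝ,
    (∀ v i, i ∉ Z → ∀ α : Fin r → ℕ, (∀ j, α j ≤ D) → ∑ j, α j = d i →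
      (aeval (cur c l) (FQ i)).coeff (∑ j, α j * l j) ≠ 0 → ∑ j, (α j : ℝ) * β v j ≤ B v i) →
    κ * ∑ v, β v (jj v) ≤ ∑ i ∈ Finset.univ \ Z, ∑ v, B v i

theorem germ_ineq {s : ℕ} (b : Fin s → ℕ) (hb : ∀ v, (b v).Prime) (hbi : Function.Injective b)
    (hL : Tendsto L atTop atTop) {n q r : ℕ} (D : ℕ) (hD : 1 ≤ D) (d : Fin q → ℕ)
    (hdD : ∀ i, d i ≤ D) (Z : Finset (Fin q)) (κ : ℝ) (hκ0 : 0 ≤ κ)
    (F : Fin q → MvPolynomial (Fin (n + 1)) ℤ) (hF : ∀ i, (F i).IsHomogeneous (d i))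
    (htype : TypeIneq κ D d Z (fun i => map (Int.castRingHom ℚ) (F i)) r)
    (x : ℕ → Fin (n + 1) → ℤ) (hprim : ∀ t, Finset.univ.gcd (x t) = 1)
    (uq : ℕ → Fin r → ℚ) (huq : ∀ t j, IsSU b (uq t j)) (hbd : ∀ j, Bd L (gm fun t => uq t j))
    (V : Fin r → Fin (n + 1) → KK L hL)
    (hXs : ∀ y, gm (fun t => (x t y : ℚ)) = ∑ j, gm (fun t => uq t j) * (V j y : GG))
    (hZ : ∀ t, ∀ i ∈ Z, eval (x t) (F i) = 0) (hC : ∀ t i, i ∉ Z → eval (x t) (F i) ≠ 0)
    (ε : ℝ) (hε : 0 < ε) :
    ∀ᶠ t in (UU : Filter ℕ), κ * Real.log (hh (x t)) ≤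
      ∑ i ∈ Finset.univ \ Z, ∑ v, Real.log (wv b hb v ((eval (x t) (F i) : ℤ) : ℚ)) +
        ε * L t := by
  classical
  set U : Fin r → GG := fun j => gm (fun t => uq t j) with hU
  have hUS : ∀ j, GSU b (U j) := fun j => ⟨_, rfl, fun t => huq t j⟩
  have hU0 : ∀ j, U j ≠ 0 := fun j => gsu_ne_zero hb (hUS j)
  obtain ⟨l, hl1, hl2⟩ := wt2 L hL r U hU0 D
  have huq0 : ∀ t j, uq t j ≠ 0 := fun t j => IsSU.ne_zero hb (huq t j)
  set c : Fin r → Fin (n + 1) → GG := fun j i => U j * (V j i : GG) with hc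
  set X : Fin (n + 1) → GG := fun y => gm (fun t => (x t y : ℚ)) with hX
  set FQ : Fin q → MvPolynomial (Fin (n + 1)) ℚ := fun i => map (Int.castRingHom ℚ) (F i) with hFQ
  have hFQh : ∀ i, (FQ i).IsHomogeneous (d i) := fun i => (hF i).map _
  have hXe : X = fun y => ∑ j, U j * (V j y : GG) := funext hXs
  have hFX : ∀ i, aeval (fun y => ∑ j, U j * (V j y : GG)) (FQ i) =
      gm (fun t => ((eval (x t) (F i) : ℤ) : ℚ)) := by
    intro i
    rw [← hXe, hX, aeval_gm']
    congr 1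
    funext t
    rw [hFQ]
    simp only
    rw [evi_eq_aeval, evi_cast]
  -- the monomials
  have hmon : ∀ α : Fin r → ℕ, ∏ j, U j ^ α j = gm (fun t => ∏ j, uq t j ^ α j) := by
    intro α
    rw [← gm_prod']
    exact Finset.prod_congr rfl fun j _ => gm_pow _ _
  have hmon0 : ∀ α : Fin r → ℕ, gm (fun t => ∏ j, uq t j ^ α j) ≠ 0 := by
    intro α
    rw [← hmon]
    exact Finset.prod_ne_zero_iff.2 fun j _ => pow_ne_zero _ (hU0 j)
  -- the curve
  have hcurZ : ∀ i ∈ Z, aeval (cur c l) (FQ i) = 0 := by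
    intro i hi
    rw [ev_cur]
    refine CS.cs SUI.sui s b hb hbi L hL (Fin r →₀ ℕ) (PV V (FQ i)).support
      (fun α => MvPolynomial.coeff α (PV V (FQ i))) (fun α => ∏ j, U j ^ (α j))
      (fun α => ∑ j, α j * l j) ?_ ?_ ?_
    · intro α _
      exact GSU.prod hb _ _ fun j _ => GSU.pow hb (hUS j) _
    · intro α hα β hβ h
      refine hl1 α β ?_ h
      rw [PV_deg V _ (d i) (hFQh i) α hα, PV_deg V _ (d i) (hFQh i) β hβ]
    · rw [← ev_u, hFX, ← gm_zero]
      congr 1
      funext t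
      rw [hZ t i hi, Int.cast_zero]
  have hFX0 : ∀ i, i ∉ Z → gm (fun t => ((eval (x t) (F i) : ℤ) : ℚ)) ≠ 0 := by
    intro i hi
    rw [gm_ne_zero]
    exact Eventually.of_forall fun t => by exact_mod_cast hC t i hi
  have hcurC : ∀ i, i ∉ Z → aeval (cur c l) (FQ i) ≠ 0 := by
    intro i hi h0
    apply hFX0 i hi
    rw [← hFX, ev_u]
    rw [ev_cur] at h0
    have h1 := congrArg (Polynomial.eval 1) h0
    rw [Polynomial.eval_finsetSum, Polynomial.eval_zero] at h1
    rw [← h1]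
    refine Finset.sum_congr rfl fun α _ => ?_
    rw [Polynomial.eval_mul, Polynomial.eval_C, Polynomial.eval_pow, Polynomial.eval_X, one_pow,
      mul_one]
  -- the limits
  have hlimU : ∀ v j, ∃ t, Tendsto (fun n => Real.log (wv b hb v (uq n j)) / L n)
      (UU : Filter ℕ) (𝓝 t) := by
    intro v j
    obtain ⟨A, hA⟩ := wv_le_of_bd b hb v (hbd j) (hU0 j)
    obtain ⟨t, -, ht⟩ := exists_lim hL (fun n => Real.log (wv b hb v (uq n j))) A (by
      filter_upwards [hA] with n hn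
      rwa [abs_neg] at hn)
    exact ⟨t, ht⟩
  choose β hβ using hlimU
  have hβ0 : ∀ j, ∑ v, β v j = 0 := by
    intro j
    have h1 : Tendsto (fun n => ∑ v, Real.log (wv b hb v (uq n j)) / L n) (UU : Filter ℕ)
        (𝓝 (∑ v, β v j)) := tendsto_finsetSum _ fun v _ => hβ v j
    have h2 : (fun n => ∑ v, Real.log (wv b hb v (uq n j)) / L n) = fun _ => 0 := by
      funext n
      have h3 := prod_formula b hb hbi (huq n j)
      rw [Finset.sum_neg_distrib, neg_eq_zero] at h3
      rw [← Finset.sum_div, h3, zero_div]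
    rw [h2] at h1
    exact tendsto_nhds_unique h1 tendsto_const_nhds
  have hlmon : ∀ v (α : Fin r → ℕ), Tendsto
      (fun n => Real.log (wv b hb v (∏ j, uq n j ^ α j)) / L n)
      (UU : Filter ℕ) (𝓝 (∑ j, (α j : ℝ) * β v j)) := by
    intro v α
    have h1 : Tendsto (fun n => ∑ j, (α j : ℝ) * (Real.log (wv b hb v (uq n j)) / L n))
        (UU : Filter ℕ) (𝓝 (∑ j, (α j : ℝ) * β v j)) :=
      tendsto_finsetSum _ fun j _ => (hβ v j).const_mul _
    refine h1.congr fun n => ?_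
    rw [map_prod, Real.log_prod]
    · rw [Finset.sum_div]
      refine Finset.sum_congr rfl fun j _ => ?_
      rw [map_pow, Real.log_pow, mul_div_assoc]
    · intro j _
      rw [map_pow]
      exact pow_ne_zero _ ((wv b hb v).ne_zero (huq0 n j))
  have hBdF : ∀ i, Bd L (gm (fun t => ((eval (x t) (F i) : ℤ) : ℚ))) := by
    intro i
    rw [← hFX, ev_u]
    exact Bd.sum hL _ _ fun α _ => (Bd.of_KK hL (coeff α (PV V (FQ i))).2).mul
      (Bd.prod hL _ _ fun j _ => (hbd j).pow hL _)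
  have hlimF : ∀ v i, ∃ t, i ∉ Z → Tendsto
      (fun n => Real.log (wv b hb v ((eval (x n) (F i) : ℤ) : ℚ)) / L n)
      (UU : Filter ℕ) (𝓝 t) := by
    intro v i
    by_cases hi : i ∈ Z
    · exact ⟨0, fun h => absurd hi h⟩
    · obtain ⟨A, hA⟩ := wv_le_of_bd b hb v (hBdF i) (hFX0 i hi)
      obtain ⟨t, -, ht⟩ := exists_lim hL
        (fun n => Real.log (wv b hb v ((eval (x n) (F i) : ℤ) : ℚ))) A (by
          filter_upwards [hA] with n hn
          rwa [abs_neg] at hn)
      exact ⟨t, fun _ => ht⟩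
  choose B hB using hlimF
  -- compatibility
  have hcompat : ∀ α α' : Fin r → ℕ, (∀ j, α j ≤ D) → (∀ j, α' j ≤ D) →
      ∑ j, α j * l j = ∑ j, α' j * l j →
      ∀ v, ∑ j, (α j : ℝ) * β v j = ∑ j, (α' j : ℝ) * β v j := by
    intro α α' hα hα' h v
    have h1 := (hl2 α α' hα hα' h).2
    rw [hmon, hmon] at h1
    exact lim_eq hL (pl_wv b hb v) (hmon0 α) (hmon0 α') h1 (hlmon v α) (hlmon v α')
  -- the classes of the terms
  have hlj : ∀ j j', l j = l j' ↔ U j / U j' ∈ KK L hL := by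
    intro j j'
    have e1 : ∀ j0 : Fin r, ∑ j, (if j = j0 then 1 else 0) * l j = l j0 := fun j0 => by simp
    have e2 : ∀ j0 : Fin r, ∏ j, U j ^ (if j = j0 then 1 else 0) = U j0 := fun j0 => by
      rw [Finset.prod_eq_single j0]
      · simp
      · intro j _ hj
        rw [if_neg hj, pow_zero]
      · intro h
        exact absurd (Finset.mem_univ _) h
    constructor
    · intro h
      have h1 := (hl2 (fun i => if i = j then 1 else 0) (fun i => if i = j' then 1 else 0)
        (fun i => by split_ifs <;> omega) (fun i => by split_ifs <;> omega)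
        (by rw [e1, e1, h])).2
      rw [e2, e2] at h1
      exact h1
    · intro h
      have h1 := hl1 (fun i => if i = j then 1 else 0) (fun i => if i = j' then 1 else 0)
        (by simp) (by rw [e2, e2]; exact h)
      rw [e1, e1] at h1
      exact h1
  have hcoeff : ∀ (y : Fin (n + 1)) (w : ℕ), (cur c l y).coeff w =
      ∑ j ∈ Finset.univ.filter (fun j => l j = w), U j * (V j y : GG) := by
    intro y w
    unfold cur
    rw [Polynomial.finsetSum_coeff, Finset.sum_filter]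
    refine Finset.sum_congr rfl fun j _ => ?_
    rw [Polynomial.coeff_C_mul_X_pow]
    by_cases h : l j = w
    · rw [if_pos h, if_pos h.symm]
    · rw [if_neg h, if_neg (Ne.symm h)]
  set J : Finset (Fin r) := Finset.univ.filter fun j => ∃ m, (cur c l m).coeff (l j) ≠ 0 with hJ
  have hJne : J.Nonempty := by
    obtain ⟨y, hy⟩ := exists_ne_of_prim x hprim
    have h1 : (cur c l y).eval 1 ≠ 0 := by
      rw [cur_eval_one, ← hXs]
      exact hy
    obtain ⟨w, hw⟩ : ∃ w, (cur c l y).coeff w ≠ 0 := by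
      by_contra hno
      push Not at hno
      apply h1
      rw [show cur c l y = 0 from Polynomial.ext hno, Polynomial.eval_zero]
    have hw' := hw
    rw [hcoeff] at hw
    obtain ⟨j, hj, -⟩ := Finset.exists_ne_zero_of_sum_ne_zero hw
    refine ⟨j, ?_⟩
    rw [hJ, Finset.mem_filter]
    refine ⟨Finset.mem_univ _, y, ?_⟩
    rw [(Finset.mem_filter.1 hj).2]
    exact hw'
  have hjj : ∀ v, ∃ j ∈ J, ∀ j' ∈ J, (OO L hL (wv b hb v)).valuation (U j') ≤
      (OO L hL (wv b hb v)).valuation (U j) := fun v => Finset.exists_max_image J _ hJne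
  choose jj hjjJ hjjmax using hjj
  have hub : ∀ v y, (OO L hL (wv b hb v)).valuation (X y) ≤
      (OO L hL (wv b hb v)).valuation (U (jj v)) := by
    intro v y
    have h1 : X y = ∑ j, (V j y : GG) * U j := by
      rw [hXe]
      exact Finset.sum_congr rfl fun j _ => mul_comm _ _
    rw [h1]
    refine ub_class b hb hL U hU0 (fun j => V j y) v (U (jj v)) fun j0 => ?_
    by_cases hj : j0 ∈ J
    · exact Or.inr (hjjmax v j0 hj)
    · left
      intro p _ hp
      rw [hJ, Finset.mem_filter] at hj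
      push Not at hj
      have h2 := hj (Finset.mem_univ _) y
      rw [hcoeff] at h2
      rw [← h2]
      refine Finset.sum_congr ?_ fun j _ => mul_comm _ _
      ext j
      simp only [Finset.mem_filter, Finset.mem_univ, true_and]
      rw [hp, hlj]
  -- the lower bounds of the values
  have hlow : ∀ v i, i ∉ Z → ∀ α : Fin r → ℕ, (∀ j, α j ≤ D) → ∑ j, α j = d i →
      (aeval (cur c l) (FQ i)).coeff (∑ j, α j * l j) ≠ 0 →
      ∑ j, (α j : ℝ) * β v j ≤ B v i := by
    intro v i hi α hα hαd hne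
    have hne' := hne
    rw [ev_cur, Polynomial.finsetSum_coeff] at hne'
    obtain ⟨α0, hα0, h1⟩ := Finset.exists_ne_zero_of_sum_ne_zero hne'
    have h2 : ∑ j, α0 j * l j = ∑ j, α j * l j := by
      by_contra h2
      rw [Polynomial.coeff_C_mul_X_pow, if_neg (Ne.symm h2)] at h1
      exact h1 rfl
    have hdeg : ∀ α' ∈ (PV V (FQ i)).support, ∑ j, α' j = d i := fun α' hα' =>
      PV_deg V _ (d i) (hFQh i) α' hα'
    have hle : ∀ α' ∈ (PV V (FQ i)).support, ∀ j, α' j ≤ D := by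
      intro α' hα' j
      refine le_trans ?_ (hdD i)
      rw [← hdeg α' hα']
      exact Finset.single_le_sum (f := fun j => α' j) (fun _ _ => Nat.zero_le _)
        (Finset.mem_univ j)
    have key := lb_class b hb hbi hL
      (fun α' : {α' // α' ∈ (PV V (FQ i)).support} => ∏ j, U j ^ (α'.1 j))
      (fun α' => GSU.prod hb _ _ fun j _ => GSU.pow hb (hUS j) _)
      (fun α' => Bd.prod hL _ _ fun j _ => (hbd j).pow hL _)
      (fun α' => coeff α'.1 (PV V (FQ i))) v ⟨α0, hα0⟩
      (fun α' => ∑ j, α'.1 j * l j = ∑ j, α0 j * l j) (fun α' => by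
        constructor
        · intro h
          exact (hl2 _ _ (hle _ α'.2) (hle _ hα0) h).2
        · intro h
          exact hl1 _ _ (by rw [hdeg _ α'.2, hdeg _ hα0]) h) (by
        rw [ev_cur, Polynomial.finsetSum_coeff] at hne
        intro h0
        apply hne
        rw [← h0, Finset.sum_filter, Finset.sum_coe_sort (PV V (FQ i)).support
          (fun α' => if ∑ j, α' j * l j = ∑ j, α0 j * l j then
            ((coeff α' (PV V (FQ i)) : KK L hL) : GG) * ∏ j, U j ^ (α' j) else 0)]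
        refine Finset.sum_congr rfl fun α' _ => ?_
        rw [Polynomial.coeff_C_mul_X_pow, h2]
        by_cases h : ∑ j, α' j * l j = ∑ j, α j * l j
        · rw [if_pos h, if_pos h.symm]
        · rw [if_neg h, if_neg (Ne.symm h)])
    rw [Finset.sum_coe_sort (PV V (FQ i)).support
      (fun α' => ((coeff α' (PV V (FQ i)) : KK L hL) : GG) * ∏ j, U j ^ (α' j)), ← ev_u, hFX,
      hmon] at key
    rw [← hcompat _ _ (hle α0 hα0) hα h2 v]
    exact lim_le hL _ (hmon0 _) (hFX0 i hi) key (hlmon v _) (hB v i hi)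
  -- the inequality of the limits
  have hmain : κ * ∑ v, β v (jj v) ≤ ∑ i ∈ Finset.univ \ Z, ∑ v, B v i := by
    have h1 := htype c l hcurZ hcurC (s + 1) (fun m j => β (finSuccEquiv s m) j) (fun j => by
      rw [Equiv.sum_comp (finSuccEquiv s) (fun v => β v j)]
      exact hβ0 j) (fun α α' hα hα' h m => hcompat α α' hα hα' h _)
      (fun m => jj (finSuccEquiv s m)) (fun m => by
        have := hjjJ (finSuccEquiv s m)
        rw [hJ, Finset.mem_filter] at this
        exact this.2) (fun m i => B (finSuccEquiv s m) i)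
      (fun m i hi α hα hαd hne => hlow _ i hi α hα hαd hne)
    rw [Equiv.sum_comp (finSuccEquiv s) (fun v => β v (jj v))] at h1
    refine h1.trans (le_of_eq (Finset.sum_congr rfl fun i _ => ?_))
    exact Equiv.sum_comp (finSuccEquiv s) (fun v => B v i)
  -- the heights
  obtain ⟨ε', hε'0, hε'⟩ : ∃ ε' : ℝ, 0 < ε' ∧ κ * ((s + 2) * ε') + ε' ≤ ε := by
    refine ⟨ε / (κ * (s + 2) + 1), by positivity, le_of_eq ?_⟩
    field_simp
  have hht : ∀ v, ∀ᶠ t in (UU : Filter ℕ), (if v = none then Real.log (hh (x t)) else 0) ≤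
      Real.log (wv b hb v (uq t (jj v))) + ε' * L t := by
    intro v
    have h1 : ∀ᶠ t in (UU : Filter ℕ), ∀ y, wv b hb v (x t y : ℚ) ≤
        wv b hb v (uq t (jj v)) * Real.exp (ε' * L t) :=
      eventually_all.2 fun y => val_le hL _ (hub v y) ε' hε'0
    filter_upwards [h1] with t ht
    have h2 : 0 < wv b hb v (uq t (jj v)) := (wv b hb v).pos (huq0 t _)
    obtain ⟨y, hy⟩ : ∃ y, Real.exp (if v = none then Real.log (hh (x t)) else 0) ≤
        wv b hb v (x t y : ℚ) := by
      cases v with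
      | none =>
        rw [if_pos rfl, Real.exp_log (by exact_mod_cast hh_pos (x t) (hprim t))]
        obtain ⟨y, -, hy⟩ := Finset.exists_mem_eq_sup Finset.univ Finset.univ_nonempty
          (fun i => (x t i).natAbs)
        refine ⟨y, ?_⟩
        rw [wv_none]
        unfold hh
        rw [hy]
        push_cast
        rw [Nat.cast_natAbs]
        push_cast
        exact le_rfl
      | some v =>
        rw [if_neg (by simp), Real.exp_zero]
        have hpr := Fact.mk (hb v)
        by_contra hno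
        push Not at hno
        have h3 : ∀ y, (b v : ℤ) ∣ x t y := by
          intro y
          have h4 := hno y
          rw [wv_some] at h4
          have h5 : padicNorm (b v) (x t y : ℚ) < 1 := by exact_mod_cast h4
          exact (padicNorm.int_lt_one_iff _).1 h5
        have h4 : (b v : ℤ) ∣ Finset.univ.gcd (x t) := Finset.dvd_gcd fun y _ => h3 y
        rw [hprim t] at h4
        exact (Nat.prime_iff_prime_int.1 (hb v)).not_dvd_one h4
    have h3 := hy.trans (ht y)
    rw [← Real.log_le_log_iff (Real.exp_pos _) (by positivity), Real.log_exp,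
      Real.log_mul h2.ne' (Real.exp_pos _).ne', Real.log_exp] at h3
    exact h3
  have hUlim : Tendsto (fun t => ∑ v, Real.log (wv b hb v (uq t (jj v))) / L t) (UU : Filter ℕ)
      (𝓝 (∑ v, β v (jj v))) := tendsto_finsetSum _ fun v _ => hβ v (jj v)
  have hFlim : Tendsto (fun t => ∑ i ∈ Finset.univ \ Z, ∑ v,
      Real.log (wv b hb v ((eval (x t) (F i) : ℤ) : ℚ)) / L t) (UU : Filter ℕ)
      (𝓝 (∑ i ∈ Finset.univ \ Z, ∑ v, B v i)) :=
    tendsto_finsetSum _ fun i hi => tendsto_finsetSum _ fun v _ =>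
      hB v i (Finset.mem_sdiff.1 hi).2
  filter_upwards [eventually_all.2 hht, hUlim.eventually (gt_mem_nhds (lt_add_of_pos_right _ hε'0)),
    hFlim.eventually (lt_mem_nhds (sub_lt_self _ hε'0)),
    ev_of_atTop (hL.eventually_gt_atTop 0)] with t h1 h2 h3 h4
  have h5 : Real.log (hh (x t)) ≤ ∑ v, Real.log (wv b hb v (uq t (jj v))) +
      (s + 1) * (ε' * L t) := by
    have h6 := Finset.sum_le_sum fun v (_ : v ∈ (Finset.univ : Finset (Option (Fin s)))) => h1 v
    rw [Finset.sum_add_distrib, Finset.sum_const, Finset.card_univ, Fintype.card_option,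
      Fintype.card_fin, nsmul_eq_mul] at h6
    simp only [Finset.sum_ite_eq', Finset.mem_univ, if_true] at h6
    push_cast at h6
    exact h6
  have h6 : ∑ v, Real.log (wv b hb v (uq t (jj v))) < (∑ v, β v (jj v) + ε') * L t := by
    rw [← Finset.sum_div, div_lt_iff₀ h4] at h2
    exact h2
  have h7 : (∑ i ∈ Finset.univ \ Z, ∑ v, B v i - ε') * L t <
      ∑ i ∈ Finset.univ \ Z, ∑ v, Real.log (wv b hb v ((eval (x t) (F i) : ℤ) : ℚ)) := by
    simp only [← Finset.sum_div] at h3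
    rw [lt_div_iff₀ h4] at h3
    exact h3
  have h8 : κ * Real.log (hh (x t)) ≤ κ * ((∑ v, β v (jj v) + ε') * L t +
      (s + 1) * (ε' * L t)) := mul_le_mul_of_nonneg_left (by linarith) hκ0
  have h9 : κ * ((∑ v, β v (jj v) + ε') * L t + (s + 1) * (ε' * L t)) =
      (κ * ∑ v, β v (jj v)) * L t + κ * ((s + 2) * ε') * L t := by ring
  have h10 := mul_le_mul_of_nonneg_right hmain h4.le
  have h11 := mul_le_mul_of_nonneg_right hε' h4.le
  nlinarith

end Pool.Agent.Q51.VX
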