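import Mathlib
import Pool.Agent.Q51.VX.Germ

set_option autoImplicit false

/-!
# The inequality for points that are short sums of S-units
-/

namespace Pool.Agent.Q51.VX

open MvPolynomial Filter Topology Pool.Agent.TH932.Germs Pool.Agent.TH551.SU
open Pool.Agent.TH551.SU.SUI Pool.Agent.Y724.Vj Pool.Agent.TH551.SU.CRV
open Pool.Agent.H533R3.SL

/-- `x` is a sum of `r` integer vectors of size at most `B * H(x) ^ δ` multiplied by units -/
def Short1 {s ν : ℕ} (b : Fin s → ℕ) (r : ℕ) (B δ : ℝ) (x : Fin ν → ℤ) : Prop :=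
  ∃ (u : Fin r → ℚ) (m : Fin r → Fin ν → ℤ), (∀ j, IsSU b (u j)) ∧
    (∀ j y, |(m j y : ℝ)| ≤ B * (hh x : ℝ) ^ δ) ∧ ∀ y, (x y : ℚ) = ∑ j, u j * m j y

/-- the statement for sums of `r` terms -/
def QQ {s n q : ℕ} (b : Fin s → ℕ) (hb : ∀ v, (b v).Prime) (κ : ℝ) (Z : Finset (Fin q))
    (F : Fin q → MvPolynomial (Fin (n + 1)) ℤ) (B ε : ℝ) (r : ℕ) : Prop :=
  ∃ (δ C : ℝ), 0 < δ ∧ ∀ x : Fin (n + 1) → ℤ, Finset.univ.gcd x = 1 →
    (∀ i ∈ Z, eval x (F i) = 0) → (∀ i, i ∉ Z → eval x (F i) ≠ 0) → Short1 b r B δ x →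
    κ * Real.log (hh x) ≤
      ∑ i ∈ Finset.univ \ Z, ∑ v, Real.log (wv b hb v ((eval x (F i) : ℤ) : ℚ)) +
        (ε * Real.log (hh x) + C)

theorem step_QQ {s : ℕ} (b : Fin s → ℕ) (hb : ∀ v, (b v).Prime) (hbi : Function.Injective b)
    {n q : ℕ} (D : ℕ) (hD : 1 ≤ D) (d : Fin q → ℕ)
    (hdD : ∀ i, d i ≤ D) (Z : Finset (Fin q)) (κ : ℝ) (hκ0 : 0 ≤ κ)
    (F : Fin q → MvPolynomial (Fin (n + 1)) ℤ) (hF : ∀ i, (F i).IsHomogeneous (d i))
    (B : ℝ) (hB : 1 ≤ B) (ε : ℝ) (hε : 0 < ε) (r : ℕ)
    (htype : TypeIneq κ D d Z (fun i => map (Int.castRingHom ℚ) (F i)) r)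
    (ih : ∀ r' < r, QQ b hb κ Z F B ε r') : QQ b hb κ Z F B ε r := by
  classical
  by_contra hcon
  unfold QQ at hcon
  push Not at hcon
  choose x hprim hxZ hxC hsh hviol using fun t : ℕ =>
    hcon (1 / ((t : ℝ) + 1)) t (by positivity)
  choose uq m huqSU hm hx using hsh
  -- the scale
  set lh : ℕ → ℝ := fun t => Real.log (hh (x t) : ℝ) + Real.log ((t : ℝ) + 1) with hlh
  set L : ℕ → ℝ := fun t => lh t + ∑ j, eta (uq t j) with hLdef
  have hHpos : ∀ t, (1 : ℝ) ≤ hh (x t) := fun t => by exact_mod_cast hh_pos (x t) (hprim t)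
  have hlH0 : ∀ t, 0 ≤ Real.log (hh (x t) : ℝ) := fun t => Real.log_nonneg (hHpos t)
  have hlt0 : ∀ t : ℕ, 0 ≤ Real.log ((t : ℝ) + 1) := fun t =>
    Real.log_nonneg (by have : (0 : ℝ) ≤ t := Nat.cast_nonneg t; linarith)
  have hes0 : ∀ t, 0 ≤ ∑ j, eta (uq t j) := fun t => Finset.sum_nonneg fun j _ => eta_nonneg _
  have hL : Tendsto L atTop atTop := by
    have h1 : Tendsto (fun t : ℕ => Real.log ((t : ℝ) + 1)) atTop atTop :=
      Real.tendsto_log_atTop.comp (tendsto_atTop_add_const_right _ _ tendsto_natCast_atTop_atTop)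
    refine tendsto_atTop_mono (fun t => ?_) h1
    have h2 := hlH0 t
    have h3 := hes0 t
    change Real.log ((t : ℝ) + 1) ≤ (Real.log (hh (x t) : ℝ) + Real.log ((t : ℝ) + 1)) +
      ∑ j, eta (uq t j)
    linarith
  -- the germs
  set U : Fin r → GG := fun j => gm (fun t => uq t j) with hU
  have hUS : ∀ j, GSU b (U j) := fun j => ⟨_, rfl, fun t => huqSU t j⟩
  have hU0 : ∀ j, U j ≠ 0 := fun j => gsu_ne_zero hb (hUS j)
  have heL : ∀ t j, eta (uq t j) ≤ L t := by
    intro t j
    have h1 := Finset.single_le_sum (f := fun j => eta (uq t j)) (fun j _ => eta_nonneg _)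
      (Finset.mem_univ j)
    have h2 := hlH0 t
    have h3 := hlt0 t
    change eta (uq t j) ≤ (Real.log (hh (x t) : ℝ) + Real.log ((t : ℝ) + 1)) +
      ∑ j, eta (uq t j)
    linarith
  have hbd : ∀ j, Bd L (U j) := by
    intro j
    refine ⟨fun t => (uq t j).num, fun t => ((uq t j).den : ℤ), 1, ?_, ?_, ?_, gm_num_den _⟩
    · refine Eventually.of_forall fun t => (num_le_eta _).trans (Real.exp_le_exp.2 ?_)
      rw [one_mul]
      exact heL t j
    · refine Eventually.of_forall fun t => ?_
      rw [Int.cast_natCast, abs_of_nonneg (Nat.cast_nonneg _), one_mul]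
      exact (den_le_eta _).trans (Real.exp_le_exp.2 (heL t j))
    · refine Eventually.of_forall fun t => ?_
      change (((uq t j).den : ℕ) : ℤ) ≠ 0
      exact_mod_cast (uq t j).den_ne_zero
  have hmN : ∀ j y, Negl L (fun t => m t j y) := by
    intro j y ε' hε'
    have h1 : ∀ᶠ t : ℕ in atTop, Real.log B ≤ ε' / 2 * L t := by
      filter_upwards [hL.eventually_ge_atTop (Real.log B / (ε' / 2))] with t ht
      rw [div_le_iff₀ (by positivity)] at ht
      linarith
    have h2 : ∀ᶠ t : ℕ in atTop, 1 / ((t : ℝ) + 1) ≤ ε' / 2 := by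
      have h3 : Tendsto (fun t : ℕ => 1 / ((t : ℝ) + 1)) atTop (𝓝 0) :=
        tendsto_one_div_add_atTop_nhds_zero_nat
      exact (h3.eventually (gt_mem_nhds (show (0 : ℝ) < ε' / 2 by positivity))).mono
        fun t ht => ht.le
    filter_upwards [ev_of_atTop h1, ev_of_atTop h2] with t h3 h4
    refine (hm t j y).trans ?_
    have h5 : (hh (x t) : ℝ) ^ (1 / ((t : ℝ) + 1)) ≤ Real.exp (ε' / 2 * L t) := by
      rw [Real.rpow_def_of_pos (lt_of_lt_of_le one_pos (hHpos t))]
      apply Real.exp_le_exp.2
      have h6 : Real.log (hh (x t) : ℝ) ≤ L t := by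
        have h7 := hlt0 t
        have h8 := hes0 t
        rw [hLdef, hlh]
        simp only
        linarith
      rw [mul_comm]
      exact mul_le_mul h4 h6 (hlH0 t) (by positivity)
    have h6 : B ≤ Real.exp (ε' / 2 * L t) := by
      rw [← Real.exp_log (lt_of_lt_of_le one_pos hB)]
      exact Real.exp_le_exp.2 h3
    calc B * (hh (x t) : ℝ) ^ (1 / ((t : ℝ) + 1)) ≤
        Real.exp (ε' / 2 * L t) * Real.exp (ε' / 2 * L t) :=
          mul_le_mul h6 h5 (Real.rpow_nonneg (Nat.cast_nonneg _) _) (Real.exp_pos _).le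
      _ = Real.exp (ε' * L t) := by rw [← Real.exp_add]; ring_nf
  have hNK : ∀ m' : ℕ → ℤ, Negl L m' → gm (fun t => (m' t : ℚ)) ∈ KK L hL := fun m' hm' =>
    ⟨_, _, hm', Negl.one hL, by simp, by
      congr 1
      funext t
      simp⟩
  set V : Fin r → Fin (n + 1) → KK L hL := fun j y => ⟨_, hNK _ (hmN j y)⟩ with hV
  set X : Fin (n + 1) → GG := fun y => gm (fun t => (x t y : ℚ)) with hX
  have hXs : ∀ y, X y = ∑ j, U j * (V j y : GG) := by
    intro y
    have h1 : ∀ j, U j * (V j y : GG) = gm (fun t => uq t j * m t j y) := fun j => by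
      rw [← gm_mul]
    rw [Finset.sum_congr rfl fun j _ => h1 j, gm_sum', hX]
    simp only
    congr 1
    funext t
    exact hx t y
  by_cases hcase : ∃ A : ℕ, ∀ᶠ t in (UU : Filter ℕ), L t ≤ ((A : ℝ) + 1) * lh t
  · -- the main case
    obtain ⟨A, hA⟩ := hcase
    have hmin : 0 < min ε 1 := lt_min hε one_pos
    have key := germ_ineq b hb hbi hL D hD d hdD Z κ hκ0 F hF htype x hprim uq huqSU hbd V hXs
      (fun t i hi => hxZ t i hi) (fun t i hi => hxC t i hi)
      (min ε 1 / ((A : ℝ) + 1)) (by positivity)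
    obtain ⟨t, h4, h5⟩ := (key.and hA).exists
    have h6 := hviol t
    have hA0 : (0 : ℝ) < (A : ℝ) + 1 := by positivity
    have h7 : min ε 1 / ((A : ℝ) + 1) * L t ≤ min ε 1 * lh t := by
      rw [div_mul_eq_mul_div, div_le_iff₀ hA0]
      have := mul_le_mul_of_nonneg_left h5 hmin.le
      linarith
    have h8 : min ε 1 * lh t ≤ ε * Real.log (hh (x t) : ℝ) + t := by
      rw [hlh]
      simp only
      rw [mul_add]
      have h9 : min ε 1 * Real.log (hh (x t) : ℝ) ≤ ε * Real.log (hh (x t) : ℝ) :=
        mul_le_mul_of_nonneg_right (min_le_left _ _) (hlH0 t)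
      have h10 : min ε 1 * Real.log ((t : ℝ) + 1) ≤ 1 * Real.log ((t : ℝ) + 1) :=
        mul_le_mul_of_nonneg_right (min_le_right _ _) (hlt0 t)
      have h11 : Real.log ((t : ℝ) + 1) ≤ t := by
        have h12 : (0 : ℝ) < (t : ℝ) + 1 := by positivity
        have := Real.log_le_sub_one_of_pos h12
        linarith
      linarith
    linarith
  · -- the height of the point is negligible
    push Not at hcase
    have hsmall : ∀ ε' : ℝ, 0 < ε' → ∀ᶠ t in (UU : Filter ℕ), lh t ≤ ε' * L t := by
      intro ε' hε'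
      obtain ⟨A, hA⟩ := exists_nat_ge (1 / ε')
      filter_upwards [hcase A] with t ht
      have hlh0 : 0 ≤ lh t := add_nonneg (hlH0 t) (hlt0 t)
      have h1 : 1 / ε' * lh t ≤ L t := by nlinarith
      rw [one_div, inv_mul_le_iff₀ hε'] at h1
      exact h1
    have hXK : ∀ y, X y ∈ KK L hL := by
      intro y
      apply hNK
      intro ε' hε'
      filter_upwards [hsmall ε' hε'] with t ht
      refine (le_hh (x t) y).trans ?_
      rw [← Real.exp_log (lt_of_lt_of_le one_pos (hHpos t))]
      apply Real.exp_le_exp.2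
      have := hlt0 t
      rw [hlh] at ht
      simp only at ht
      linarith
    set J1 : Finset (Fin r) := Finset.univ.filter fun j => U j ∈ KK L hL with hJ1
    have hW : ∀ y, X y = ∑ j ∈ J1, U j * (V j y : GG) := by
      intro y
      have hw : ∀ o : Option (Fin r), o.elim (1 : GG) U ∈ KK L hL ↔
          o.elim 1 (fun j => if U j ∈ KK L hL then 1 else 0) = 1 := by
        rintro (_ | j)
        · exact ⟨fun _ => rfl, fun _ => (KK L hL).one_mem⟩
        · simp only [Option.elim_some]
          by_cases h : U j ∈ KK L hL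
          · simp [h]
          · simp [h]
      have hw2 : ∀ o : Option (Fin r), o.elim 1 (fun j => if U j ∈ KK L hL then 1 else 0) = 0 ∨
          o.elim 1 (fun j => if U j ∈ KK L hL then 1 else 0) = 1 := by
        rintro (_ | j)
        · right
          rfl
        · simp only [Option.elim_some]
          split_ifs
          · right; rfl
          · left; rfl
      have h1 := CS.cs SUI.sui s b hb hbi L hL (Option (Fin r)) Finset.univ
        (fun o => o.elim (⟨X y, hXK y⟩ : KK L hL) (fun j => -V j y))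
        (fun o => o.elim (1 : GG) U)
        (fun o => o.elim 1 (fun j => if U j ∈ KK L hL then 1 else 0)) (by
          rintro (_ | j) _
          · exact GSU.one
          · exact hUS j) (by
          intro i _ j _ hij
          have hg0 : ∀ o : Option (Fin r), o.elim (1 : GG) U ≠ 0 := by
            rintro (_ | j)
            · exact one_ne_zero
            · exact hU0 j
          have h2 : i.elim (1 : GG) U ∈ KK L hL ↔ j.elim (1 : GG) U ∈ KK L hL := by
            constructor
            · intro h3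
              have h4 := (KK L hL).div_mem h3 hij
              have h5 : i.elim (1 : GG) U / (i.elim (1 : GG) U / j.elim (1 : GG) U) =
                  j.elim (1 : GG) U := by
                have := hg0 i
                have := hg0 j
                field_simp
              rwa [h5] at h4
            · intro h3
              have h4 := (KK L hL).mul_mem h3 hij
              have h5 : j.elim (1 : GG) U * (i.elim (1 : GG) U / j.elim (1 : GG) U) =
                  i.elim (1 : GG) U := by
                have := hg0 i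
                have := hg0 j
                field_simp
              rwa [h5] at h4
          rw [hw, hw] at h2
          rcases hw2 i with h3 | h3 <;> rcases hw2 j with h4 | h4
          · rw [h3, h4]
          · rw [h3, h4] at h2
            exact absurd (h2.2 rfl) (by norm_num)
          · rw [h3, h4] at h2
            exact absurd (h2.1 rfl) (by norm_num)
          · rw [h3, h4]) (by
          rw [Fintype.sum_option]
          simp only [Option.elim_none, Option.elim_some]
          rw [mul_one]
          push_cast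
          have h3 := hXs y
          rw [h3, ← Finset.sum_add_distrib]
          exact Finset.sum_eq_zero fun j _ => by ring)
      have h3 := congrArg (fun p => Polynomial.coeff p 1) h1
      simp only [Polynomial.finsetSum_coeff, Polynomial.coeff_zero,
        Polynomial.coeff_C_mul_X_pow] at h3
      rw [Fintype.sum_option] at h3
      simp only [Option.elim_none, Option.elim_some, if_true] at h3
      have h4 : X y + ∑ j, (if U j ∈ KK L hL then -(U j * (V j y : GG)) else 0) = 0 := by
        refine Eq.trans ?_ h3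
        rw [mul_one]
        congr 1
        refine Finset.sum_congr rfl fun j _ => ?_
        by_cases h5 : U j ∈ KK L hL
        · simp [h5, mul_comm]
        · simp [h5]
      rw [← Finset.sum_filter, Finset.sum_neg_distrib, ← sub_eq_add_neg, sub_eq_zero] at h4
      exact h4
    -- the class is proper
    have hcard : J1.card < r := by
      by_contra hge
      have h1 : J1 = Finset.univ := by
        apply Finset.eq_univ_of_card
        have := J1.card_le_univ
        rw [Fintype.card_fin] at this ⊢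
        omega
      have h3 : ∀ j, U j ∈ KK L hL := by
        intro j
        have : j ∈ J1 := by rw [h1]; exact Finset.mem_univ _
        exact (Finset.mem_filter.1 this).2
      have h4 : ∀ ε' : ℝ, 0 < ε' → ∀ᶠ t in (UU : Filter ℕ), ∀ j, eta (uq t j) ≤ ε' * L t := by
        intro ε' hε'
        refine eventually_all.2 fun j => ?_
        obtain ⟨h5, h6⟩ := (mem_KK_iff hL _).1 (h3 j)
        filter_upwards [h5 ε' hε', h6 ε' hε', L_nonneg hL] with t h7 h8 h9
        unfold eta
        rw [Int.cast_natCast, abs_of_nonneg (Nat.cast_nonneg _)] at h8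
        have h10 : (1 : ℝ) ≤ (uq t j).den := by exact_mod_cast (uq t j).pos
        have h11 : 0 < max |((uq t j).num : ℝ)| ((uq t j).den : ℝ) :=
          lt_of_lt_of_le one_pos (le_max_of_le_right h10)
        rw [Real.log_le_iff_le_exp h11]
        exact max_le h7 h8
      have hr0 : (0 : ℝ) < (r : ℝ) + 1 := by positivity
      obtain ⟨t, h5, h6, h7⟩ := ((hsmall (1 / 4) (by norm_num)).and
        ((h4 (1 / (4 * ((r : ℝ) + 1))) (by positivity)).and
          (ev_of_atTop (hL.eventually_gt_atTop 0)))).exists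
      have h8 : ∑ j, eta (uq t j) ≤ (r : ℝ) * (1 / (4 * ((r : ℝ) + 1)) * L t) := by
        refine (Finset.sum_le_sum fun j _ => h6 j).trans (le_of_eq ?_)
        rw [Finset.sum_const, Finset.card_univ, Fintype.card_fin, nsmul_eq_mul]
      have h9 : (r : ℝ) * (1 / (4 * ((r : ℝ) + 1)) * L t) ≤ 1 / 4 * L t := by
        have h10 : (r : ℝ) * (1 / (4 * ((r : ℝ) + 1))) ≤ 1 / 4 := by
          rw [mul_one_div, div_le_div_iff₀ (by positivity) (by norm_num)]
          linarith
        have := mul_le_mul_of_nonneg_right h10 h7.le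
        linarith
      have h10 : L t = lh t + ∑ j, eta (uq t j) := rfl
      linarith
    -- the shorter sum
    obtain ⟨δ', C', hδ', hQQ⟩ := ih J1.card hcard
    have hrep : ∀ᶠ t in (UU : Filter ℕ), ∀ y, (x t y : ℚ) = ∑ j ∈ J1, uq t j * m t j y := by
      refine eventually_all.2 fun y => ?_
      have h1 := hW y
      rw [hX] at h1
      simp only at h1
      have h2 : ∀ j, U j * (V j y : GG) = gm (fun t => uq t j * m t j y) := fun j => by
        rw [← gm_mul]
      rw [Finset.sum_congr rfl fun j _ => h2 j, gm_sum', gm_eq] at h1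
      exact h1
    have hδt : ∀ᶠ t : ℕ in (UU : Filter ℕ), 1 / ((t : ℝ) + 1) ≤ δ' := by
      apply ev_of_atTop
      have h3 : Tendsto (fun t : ℕ => 1 / ((t : ℝ) + 1)) atTop (𝓝 0) :=
        tendsto_one_div_add_atTop_nhds_zero_nat
      exact (h3.eventually (gt_mem_nhds hδ')).mono fun t ht => ht.le
    have hCt : ∀ᶠ t : ℕ in (UU : Filter ℕ), C' ≤ t :=
      ev_of_atTop (tendsto_natCast_atTop_atTop.eventually_ge_atTop C')
    obtain ⟨t, h1, h3, h4⟩ := (hrep.and (hδt.and hCt)).exists
    have h6 : Short1 b J1.card B δ' (x t) := by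
      let eJ := (J1.equivFin).symm
      refine ⟨fun i => uq t (eJ i), fun i => m t (eJ i), fun i => huqSU t _, ?_, ?_⟩
      · intro i y
        refine (hm t (eJ i) y).trans ?_
        refine mul_le_mul_of_nonneg_left ?_ (by linarith)
        exact Real.rpow_le_rpow_of_exponent_le (hHpos t) h3
      · intro y
        rw [h1 y, ← Finset.sum_coe_sort J1 (fun j => uq t j * (m t j y : ℚ)),
          ← Equiv.sum_comp eJ]
    have h7 := hQQ (x t) (hprim t) (hxZ t) (hxC t) h6
    have h8 := hviol t
    linarith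

/-- the statement for all numbers of terms -/
theorem all_QQ {s : ℕ} (b : Fin s → ℕ) (hb : ∀ v, (b v).Prime) (hbi : Function.Injective b)
    {n q : ℕ} (D : ℕ) (hD : 1 ≤ D) (d : Fin q → ℕ)
    (hdD : ∀ i, d i ≤ D) (Z : Finset (Fin q)) (κ : ℝ) (hκ0 : 0 ≤ κ)
    (F : Fin q → MvPolynomial (Fin (n + 1)) ℤ) (hF : ∀ i, (F i).IsHomogeneous (d i))
    (B : ℝ) (hB : 1 ≤ B) (ε : ℝ) (hε : 0 < ε) (r : ℕ)
    (htype : ∀ r' ≤ r, TypeIneq κ D d Z (fun i => map (Int.castRingHom ℚ) (F i)) r') :
    QQ b hb κ Z F B ε r := by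
  induction r using Nat.strong_induction_on with
  | _ r ih =>
    exact step_QQ b hb hbi D hD d hdD Z κ hκ0 F hF B hB ε hε r (htype r le_rfl)
      fun r' hr' => ih r' hr' fun r'' hr'' => htype r'' (hr''.trans hr'.le)

end Pool.Agent.Q51.VX
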