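import Mathlib
import Pool.Agent.Q51.HG.Gen
import Pool.Agent.TH812.GV3.Final
import Pool.Agent.TH145.MG.Cnt
import Pool.Agent.W619.PQ.Curve

set_option autoImplicit false

/-!
# The inequality for punctured rational curves in general pairs
-/

namespace Pool.Agent.Q51.VX

open MvPolynomial FF Pool.Agent.Q51.HG
open Pool.Agent.W603.LV Pool.Agent.W603.PV Pool.Agent.W603.CZ
open Pool.Agent.TH182.VD (CI)
open Pool.Agent.TH145.MG (cl subset_cl indep_of_mem)

variable {n q : ℕ}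

theorem finite_CI (d : Fin q → ℕ) : Finite (CI n d) := by
  unfold CI
  have h : ∀ i : Fin q, Finite {α : Fin (n + 1) →₀ ℕ // α.degree = d i} := fun i =>
    ((Finsupp.finite_of_degree_le (d i)).subset fun I hI => le_of_eq hI).to_subtype
  infer_instance

theorem ratio_indep (d : Fin q → ℕ) (a : CI n d → ℂ) (ha : AlgebraicIndependent ℚ a) :
    AlgebraicIndependent ℚ fun p : {p : Fin q × (Fin (n + 1) →₀ ℕ) //
      p.2.degree = d p.1 ∧ p.2 ≠ Finsupp.single 0 (d p.1)} =>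
        (gF n d a p.1.1).coeff p.1.2 / (gF n d a p.1.1).coeff (Finsupp.single 0 (d p.1.1)) := by
  classical
  have hfin : Finite (CI n d) := finite_CI d
  let I0 : (i : Fin q) → CI n d := fun i => ⟨i, Finsupp.single 0 (d i), by simp⟩
  let y : CI n d → ℂ := fun x => if x = I0 x.1 then a x else a x / a (I0 x.1)
  have ha0 : ∀ x, a x ≠ 0 := fun x => ha.ne_zero x
  have hy : AlgebraicIndependent ℚ y := by
    refine indep_of_mem a y ha fun x => ?_
    have h1 : y (I0 x.1) = a (I0 x.1) := if_pos rfl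
    by_cases hx : x = I0 x.1
    · have h2 : y x = a x := if_pos hx
      rw [← h2]
      exact subset_cl ⟨x, rfl⟩
    · have h2 : y x = a x / a (I0 x.1) := if_neg hx
      have h3 : a x = y x * y (I0 x.1) := by rw [h1, h2, div_mul_cancel₀ _ (ha0 _)]
      rw [h3]
      exact mul_mem (subset_cl ⟨x, rfl⟩) (subset_cl ⟨_, rfl⟩)
  let e : {p : Fin q × (Fin (n + 1) →₀ ℕ) //
      p.2.degree = d p.1 ∧ p.2 ≠ Finsupp.single 0 (d p.1)} → CI n d := fun p =>
    ⟨p.1.1, p.1.2, p.2.1⟩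
  have he : Function.Injective e := by
    rintro ⟨⟨i, α⟩, h1, h2⟩ ⟨⟨i', α'⟩, h3, h4⟩ h
    simp only [e, Sigma.mk.injEq] at h
    obtain ⟨rfl, h⟩ := h
    have h5 := congrArg Subtype.val (eq_of_heq h)
    simp only at h5
    subst h5
    rfl
  have h := hy.comp e he
  have h2 : (fun p : {p : Fin q × (Fin (n + 1) →₀ ℕ) //
      p.2.degree = d p.1 ∧ p.2 ≠ Finsupp.single 0 (d p.1)} =>
        (gF n d a p.1.1).coeff p.1.2 / (gF n d a p.1.1).coeff (Finsupp.single 0 (d p.1.1))) =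
      y ∘ e := by
    funext p
    have h3 : e p ≠ I0 (e p).1 := by
      intro h4
      apply p.2.2
      have h5 := congrArg (fun x : CI n d => x.2.1) h4
      exact h5
    have h4 : y (e p) = a (e p) / a (I0 (e p).1) := if_neg h3
    rw [Function.comp_apply, h4, ← coeff_gF d a (e p), ← coeff_gF d a (I0 (e p).1)]
  rw [h2]
  exact h

theorem ff_ineq (d : Fin q → ℕ) (a : CI n d → ℂ) (ha : AlgebraicIndependent ℚ a)
    (Z : Finset (Fin q)) (L : Type) [Field L] [Algebra ℂ L] [IsFF ℂ L] (x : Fin (n + 1) → L)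
    (hnc : ∀ (c : L) (y : Fin (n + 1) → ℂ), x ≠ c • fun l => algebraMap ℂ L (y l))
    (hx : ∀ i, aeval x (gF n d a i) = 0 ↔ i ∈ Z) :
    ((∑ i, (d i : ℤ)) + Z.card - 2 * n) * pht ℂ x ≤
      (meetsAny (k := ℂ) (fun i : {i // i ∉ Z} => gF n d a i) (fun i => d i) x).ncard +
        canDeg ℂ L := by
  have h := (Pool.Agent.TH812.GV3.final (F0 := ℚ) (k := ℂ) (n := n) (m := n) (ι := Fin 0)
    (by simp) (fun j => j.elim0) (fun j => j.elim0) (fun j => j.elim0) (gF n d a) d (gF_hom d a)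
    (fun i => Finsupp.single 0 (d i)) (fun i => by
      have h1 := coeff_gF d a (⟨i, Finsupp.single 0 (d i), by simp⟩ : CI n d)
      rw [h1]
      exact ha.ne_zero _) (ratio_indep d a ha) Z (fun _ _ _ _ => linearIndependent_empty_type) L x hnc
    (fun j => j.elim0) hx).2.1
  simpa using h

theorem ord_const_ne (P : Place ℂ (RatFunc ℂ)) {c : ℂ} (hc : c ≠ 0) :
    P.ord (algebraMap ℂ (RatFunc ℂ) c) = 0 := P.ord_const hc

theorem canDeg_rf : canDeg ℂ (RatFunc ℂ) = -2 :=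
  Pool.Agent.W619.PQ.canDeg_rational (x := (RatFunc.X : RatFunc ℂ)) RatFunc.adjoin_X

theorem isFF_rf : IsFF ℂ (RatFunc ℂ) := by
  refine IsFF.of_finite (f := (RatFunc.X : RatFunc ℂ)) RatFunc.transcendental_X ?_
  rw [RatFunc.adjoin_X]
  exact Module.Finite.of_surjective (Algebra.linearMap (⊤ : IntermediateField ℂ (RatFunc ℂ))
    (RatFunc ℂ)) fun z => ⟨⟨z, trivial⟩, rfl⟩

end Pool.Agent.Q51.VX
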