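import Mathlib
import Pool.Agent.Q51.VX.FF
import Pool.Agent.Y215.SK.FinA

set_option autoImplicit false

/-!
# The inequality for punctured rational curves in general pairs, in terms of the orders at the punctures
-/

namespace Pool.Agent.Q51.VX

open MvPolynomial FF Pool.Agent.Q51.HG
open Pool.Agent.W603.LV Pool.Agent.W603.PV Pool.Agent.W603.CZ
open Pool.Agent.TH182.VD (CI)

variable {n q : ℕ}

attribute [local instance] isFF_rf

theorem punct (d : Fin q → ℕ) (a : CI n d → ℂ) (ha : AlgebraicIndependent ℚ a)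
    (Z : Finset (Fin q))
    (hκ : (∑ i, (d i : ℤ)) + Z.card - 2 * n ≤ ∑ i ∈ Finset.univ \ Z, (d i : ℤ))
    (T : Finset (Place ℂ (RatFunc ℂ))) (x : Fin (n + 1) → RatFunc ℂ) (hx0 : x ≠ 0)
    (hx : ∀ i, aeval x (gF n d a i) = 0 ↔ i ∈ Z)
    (hT : ∀ P, P ∉ T → 0 ≤ pord P x) :
    ((∑ i, (d i : ℤ)) + Z.card - 2 * n) * ∑ P ∈ T, (-pord P x) ≤
      T.card + ∑ i ∈ Finset.univ \ Z, ∑ P ∈ T, -P.ord (aeval x (gF n d a i)) := by
  classical
  set κ : ℤ := (∑ i, (d i : ℤ)) + Z.card - 2 * n with hκdef
  set σ : ℤ := ∑ i ∈ Finset.univ \ Z, (d i : ℤ) with hσ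
  -- a finite set of places
  have hpf := pord_finite (k := ℂ) (Function.ne_iff.1 hx0)
  have hof : ∀ i, (Function.support fun P : Place ℂ (RatFunc ℂ) =>
      P.ord (aeval x (gF n d a i))).Finite := fun i => finite_support _
  set U : Finset (Place ℂ (RatFunc ℂ)) := T ∪ (hpf.toFinset ∪
    Finset.univ.biUnion fun i => (hof i).toFinset) with hU
  have hTU : T ⊆ U := Finset.subset_union_left
  have hpU : ∀ P, pord P x ≠ 0 → P ∈ U := fun P hP =>
    Finset.mem_union_right _ (Finset.mem_union_left _ (hpf.mem_toFinset.2 hP))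
  have hoU : ∀ i P, P.ord (aeval x (gF n d a i)) ≠ 0 → P ∈ U := fun i P hP =>
    Finset.mem_union_right _ (Finset.mem_union_right _ (Finset.mem_biUnion.2
      ⟨i, Finset.mem_univ i, (hof i).mem_toFinset.2 hP⟩))
  have hpht : pht ℂ x = -∑ P ∈ U, pord P x := by
    unfold pht
    rw [finsum_eq_sum_of_support_subset (s := U)]
    intro P hP
    exact hpU P hP
  have hord : ∀ i, ∑ P ∈ U, P.ord (aeval x (gF n d a i)) = 0 := fun i =>
    sum_ord_finset _ U (hoU i)
  have hsplit : ∀ f : Place ℂ (RatFunc ℂ) → ℤ, ∑ P ∈ U, f P = ∑ P ∈ T, f P + ∑ P ∈ U \ T, f P := by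
    intro f
    rw [add_comm, Finset.sum_sdiff hTU]
  set A : ℤ := ∑ P ∈ T, (-pord P x) with hA
  set N0 : ℤ := ∑ P ∈ U \ T, pord P x with hN0
  set B : ℤ := ∑ i ∈ Finset.univ \ Z, ∑ P ∈ T, -P.ord (aeval x (gF n d a i)) with hB
  have hN00 : 0 ≤ N0 := Finset.sum_nonneg fun P hP => hT P (Finset.mem_sdiff.1 hP).2
  have hphtA : pht ℂ x = A - N0 := by
    rw [hpht, hsplit, hA, Finset.sum_neg_distrib]
    ring
  by_cases hc : ∃ (c : RatFunc ℂ) (y : Fin (n + 1) → ℂ), x = c • fun l => algebraMap ℂ _ (y l)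
  · -- the constant case
    obtain ⟨c, y, hcy⟩ := hc
    have hc0 : c ≠ 0 := by
      rintro rfl
      apply hx0
      rw [hcy, zero_smul]
    have hxj : ∀ j, x j = c * algebraMap ℂ (RatFunc ℂ) (y j) := fun j => by
      rw [hcy]
      rfl
    have hpo : ∀ P : Place ℂ (RatFunc ℂ), pord P x = P.ord c := by
      intro P
      obtain ⟨j, hj, hj2⟩ := exists_pord P (Function.ne_iff.1 hx0)
      rw [← hj2, hxj j]
      have hy : y j ≠ 0 := by
        intro h
        apply hj
        rw [hxj, h, map_zero, mul_zero]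
      rw [P.ord_mul hc0 ((map_ne_zero _).2 hy), ord_const_ne P hy, add_zero]
    have hFo : ∀ i, i ∉ Z → ∀ P : Place ℂ (RatFunc ℂ),
        P.ord (aeval x (gF n d a i)) = d i * P.ord c := by
      intro i hi P
      have h1 : aeval x (gF n d a i) = c ^ (d i) * algebraMap ℂ (RatFunc ℂ)
          (aeval y (gF n d a i)) := by
        have h2 : aeval x (gF n d a i) = c ^ (d i) *
            aeval (fun l => algebraMap ℂ (RatFunc ℂ) (y l)) (gF n d a i) := by
          have h3 : x = fun l => c * algebraMap ℂ (RatFunc ℂ) (y l) := funext hxj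
          rw [h3]
          exact Pool.Agent.Y215.SK.aeval_hom_smul _ (gF_hom d a i) c _
        rw [h2]
        congr 1
        exact aeval_algebraMap_apply (RatFunc ℂ) y (gF n d a i)
      have h2 : aeval x (gF n d a i) ≠ 0 := fun h => hi ((hx i).1 h)
      rw [h1] at h2
      have h3 : (aeval y (gF n d a i) : ℂ) ≠ 0 := by
        intro h
        rw [h, map_zero, mul_zero] at h2
        exact h2 rfl
      rw [h1, P.ord_mul (pow_ne_zero _ hc0) ((map_ne_zero _).2 h3), ord_const_ne P h3, add_zero,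
        P.ord_pow]
    have hBA : B = σ * A := by
      rw [hB, hσ, hA, Finset.sum_mul]
      refine Finset.sum_congr rfl fun i hi => ?_
      rw [Finset.mul_sum]
      refine Finset.sum_congr rfl fun P _ => ?_
      rw [hFo i (Finset.mem_sdiff.1 hi).2 P, hpo P]
      ring
    have hA0 : 0 ≤ A := by
      have h1 : A = N0 := by
        have h2 : ∑ P ∈ U, P.ord c = 0 := sum_ord_finset _ U (fun P hP => hpU P (by rwa [hpo]))
        rw [hsplit] at h2
        rw [hA, hN0]
        simp only [hpo]
        rw [Finset.sum_neg_distrib]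
        linarith
      rw [h1]
      exact hN00
    rw [hBA]
    have h1 : κ * A ≤ σ * A := mul_le_mul_of_nonneg_right hκ hA0
    have h2 : (0 : ℤ) ≤ T.card := Nat.cast_nonneg _
    linarith
  · push Not at hc
    have h := ff_ineq d a ha Z (RatFunc ℂ) x hc hx
    rw [canDeg_rf, ← hκdef, hphtA] at h
    -- the number of places
    set ME := meetsAny (k := ℂ) (fun i : {i // i ∉ Z} => gF n d a i) (fun i => d i) x with hME
    have hge : ∀ i (P : Place ℂ (RatFunc ℂ)), i ∉ Z →
        d i * pord P x ≤ P.ord (aeval x (gF n d a i)) := by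
      intro i P hi
      have h1 := ge_form P x (gF_hom d a i) (fun α _ => Ge.const _)
      exact h1.resolve_left fun h => hi ((hx i).1 h)
    have hMU : ME ⊆ (U : Set (Place ℂ (RatFunc ℂ))) := by
      rintro P ⟨⟨i, hi⟩, hP⟩
      by_contra hcon
      have h1 : pord P x = 0 := by
        by_contra h2
        exact hcon (hpU P h2)
      have h2 : P.ord (aeval x (gF n d a i)) = 0 := by
        by_contra h3
        exact hcon (hoU i P h3)
      simp only at hP
      rw [h1, h2, mul_zero] at hP
      exact lt_irrefl _ hP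
    have hcard : (ME.ncard : ℤ) ≤ T.card + ∑ P ∈ U \ T, ∑ i ∈ Finset.univ \ Z,
        (P.ord (aeval x (gF n d a i)) - d i * pord P x) := by
      have h1 : ME.ncard = (U.filter fun P => P ∈ ME).card := by
        rw [← Set.ncard_coe_finset]
        congr 1
        ext P
        simp only [Finset.coe_filter, Set.mem_setOf_eq]
        exact ⟨fun h => ⟨hMU h, h⟩, fun h => h.2⟩
      have h2 : ((U.filter fun P => P ∈ ME).card : ℤ) = ∑ P ∈ U, if P ∈ ME then (1 : ℤ) else 0 := by
        rw [Finset.card_filter]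
        push_cast
        rfl
      rw [h1, h2, hsplit]
      refine add_le_add ?_ ?_
      · have h3 : ∑ P ∈ T, (if P ∈ ME then (1 : ℤ) else 0) ≤ ∑ P ∈ T, (1 : ℤ) :=
          Finset.sum_le_sum fun P _ => by split_ifs <;> norm_num
        simpa using h3
      · refine Finset.sum_le_sum fun P _ => ?_
        have hnn : ∀ i ∈ Finset.univ \ Z, 0 ≤ P.ord (aeval x (gF n d a i)) - d i * pord P x :=
          fun i hi => by linarith [hge i P (Finset.mem_sdiff.1 hi).2]
        split_ifs with hP
        · obtain ⟨⟨i, hi⟩, hP⟩ := hP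
          simp only at hP
          have h3 := Finset.single_le_sum hnn (Finset.mem_sdiff.2 ⟨Finset.mem_univ i, hi⟩)
          linarith
        · exact Finset.sum_nonneg hnn
    have hsum : ∑ P ∈ U \ T, ∑ i ∈ Finset.univ \ Z,
        (P.ord (aeval x (gF n d a i)) - d i * pord P x) = B - σ * N0 := by
      rw [Finset.sum_comm, hB, hσ, Finset.sum_mul, ← Finset.sum_sub_distrib]
      refine Finset.sum_congr rfl fun i _ => ?_
      rw [Finset.sum_sub_distrib, ← Finset.mul_sum]
      congr 1
      have h1 := hord i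
      rw [hsplit] at h1
      rw [Finset.sum_neg_distrib]
      linarith
    rw [hsum] at hcard
    have h5 : (κ - σ) * N0 ≤ 0 := mul_nonpos_of_nonpos_of_nonneg (by linarith) hN00
    nlinarith

end Pool.Agent.Q51.VX
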