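import Mathlib
import Pool.Agent.Q51.VX.Punct

set_option autoImplicit false

/-!
# Functions on the line with prescribed orders at given points
-/

namespace Pool.Agent.Q51.VX

open MvPolynomial FF Pool.Agent.Q51.HG
open Pool.Agent.W603.LV Pool.Agent.W603.PV Pool.Agent.W603.CZ
open Pool.Agent.W619.PQ (top_sub zero_unique pole_unique)

attribute [local instance] isFF_rf

/-- the places of the rational function field -/
abbrev Pls : Type := Place ℂ (RatFunc ℂ)

/-- `t - a` -/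
noncomputable def lf (a : ℂ) : RatFunc ℂ := RatFunc.X - algebraMap ℂ (RatFunc ℂ) a

theorem lf_ne (a : ℂ) : lf a ≠ 0 := by
  intro h
  unfold lf at h
  rw [sub_eq_zero] at h
  exact RatFunc.transcendental_X (K := ℂ) (h ▸ isAlgebraic_algebraMap a)

theorem exists_zero (a : ℂ) : ∃ P : Pls, P.ord (lf a) = 1 ∧ ∀ Q : Pls, 0 < Q.ord (lf a) → Q = P :=
  zero_unique (top_sub RatFunc.adjoin_X a)

/-- the place `t = a` -/
noncomputable def pl (a : ℂ) : Pls := (exists_zero a).choose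

theorem pl_ord (a : ℂ) : (pl a).ord (lf a) = 1 := (exists_zero a).choose_spec.1

theorem pl_unique (a : ℂ) (Q : Pls) (h : 0 < Q.ord (lf a)) : Q = pl a :=
  (exists_zero a).choose_spec.2 Q h

theorem lf_sub (a b : ℂ) : lf b = lf a + algebraMap ℂ (RatFunc ℂ) (a - b) := by
  unfold lf
  rw [map_sub]
  ring

theorem pl_ord_ne {a b : ℂ} (h : a ≠ b) : (pl a).ord (lf b) = 0 := by
  have h0 : a - b ≠ 0 := sub_ne_zero.2 h
  have h1 : (pl a).ord (algebraMap ℂ (RatFunc ℂ) (a - b)) = 0 := ord_const_ne _ h0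
  have h2 := (pl a).ord_add_eq (f := algebraMap ℂ (RatFunc ℂ) (a - b)) (g := lf a)
    ((map_ne_zero _).2 h0) (lf_ne a) (by rw [h1, pl_ord]; norm_num)
  rw [lf_sub a b, add_comm, h2.2, h1]

theorem pl_inj {a b : ℂ} (h : pl a = pl b) : a = b := by
  by_contra hne
  have h1 := pl_ord_ne hne
  rw [h, pl_ord] at h1
  exact one_ne_zero h1

/-- at a place with a pole of `t - a` all the functions `t - b` have the same order -/
theorem ord_neg {Q : Pls} {a : ℂ} (b : ℂ) (h : Q.ord (lf a) < 0) : Q.ord (lf b) = Q.ord (lf a) := by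
  by_cases hab : a = b
  · rw [hab]
  · have h0 : a - b ≠ 0 := sub_ne_zero.2 hab
    have h1 : Q.ord (algebraMap ℂ (RatFunc ℂ) (a - b)) = 0 := ord_const_ne _ h0
    have h2 := Q.ord_add_eq (f := lf a) (g := algebraMap ℂ (RatFunc ℂ) (a - b)) (lf_ne a)
      ((map_ne_zero _).2 h0) (by rw [h1]; exact h)
    rw [lf_sub a b, h2.2]

theorem zpow_sum_ne {K ι : Type} [Field K] (s : Finset ι) {f : K} (hf : f ≠ 0) (e : ι → ℤ) :
    ∏ i ∈ s, f ^ e i = f ^ ∑ i ∈ s, e i := by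
  classical
  induction s using Finset.induction_on with
  | empty => simp
  | insert a s ha ih => rw [Finset.prod_insert ha, Finset.sum_insert ha, ih, zpow_add₀ hf]

variable {κ : Type} [Fintype κ] (p : κ → ℂ)

/-- the function with exponents `m` -/
noncomputable def gg (m : κ → ℤ) : RatFunc ℂ := ∏ o, lf (p o) ^ m o

theorem gg_ne (m : κ → ℤ) : gg p m ≠ 0 :=
  Finset.prod_ne_zero_iff.2 fun o _ => zpow_ne_zero _ (lf_ne _)

theorem gg_prod {ι : Type} [Fintype ι] (m : ι → κ → ℤ) (α : ι → ℕ) :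
    ∏ j, gg p (m j) ^ α j = gg p (fun o => ∑ j, (α j : ℤ) * m j o) := by
  unfold gg
  simp_rw [← Finset.prod_pow]
  rw [Finset.prod_comm]
  refine Finset.prod_congr rfl fun o _ => ?_
  rw [← zpow_sum_ne _ (lf_ne _)]
  refine Finset.prod_congr rfl fun j _ => ?_
  rw [← zpow_natCast, ← zpow_mul, mul_comm]

theorem ord_gg (Q : Pls) (m : κ → ℤ) : Q.ord (gg p m) = ∑ o, m o * Q.ord (lf (p o)) := by
  unfold gg
  rw [Pool.Agent.W619.PQ.ord_prod _ _ _ fun o _ => zpow_ne_zero _ (lf_ne _)]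
  exact Finset.sum_congr rfl fun o _ => Q.ord_zpow _ _

theorem ord_gg_at (hp : Function.Injective p) (o : κ) (m : κ → ℤ) :
    (pl (p o)).ord (gg p m) = m o := by
  classical
  rw [ord_gg, Finset.sum_eq_single o]
  · rw [pl_ord, mul_one]
  · intro o' _ h
    rw [pl_ord_ne (fun e => h (hp e).symm), mul_zero]
  · intro h
    exact absurd (Finset.mem_univ o) h

theorem ord_gg_other (Q : Pls) (hQ : ∀ o, Q ≠ pl (p o)) (m : κ → ℤ) (hm : ∑ o, m o = 0) :
    Q.ord (gg p m) = 0 := by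
  rw [ord_gg]
  have h1 : ∀ o, Q.ord (lf (p o)) ≤ 0 := by
    intro o
    by_contra h
    exact hQ o (pl_unique _ Q (by omega))
  by_cases h2 : ∃ o, Q.ord (lf (p o)) < 0
  · obtain ⟨o, ho⟩ := h2
    rw [Finset.sum_congr rfl fun o' _ => by rw [ord_neg (p o') ho], ← Finset.sum_mul, hm, zero_mul]
  · push Not at h2
    exact Finset.sum_eq_zero fun o _ => by rw [le_antisymm (h1 o) (h2 o), mul_zero]

/-- a sum of functions with different orders -/
theorem ord_sum (P : Pls) {ι : Type} (S : Finset ι) (c : ι → ℂ) (G : ι → RatFunc ℂ)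
    (hc : ∀ i ∈ S, c i ≠ 0) (hG : ∀ i ∈ S, G i ≠ 0)
    (hinj : ∀ i ∈ S, ∀ j ∈ S, P.ord (G i) = P.ord (G j) → i = j) (i0 : ι) (hi0 : i0 ∈ S) :
    ∑ i ∈ S, algebraMap ℂ (RatFunc ℂ) (c i) * G i ≠ 0 ∧
      P.ord (∑ i ∈ S, algebraMap ℂ (RatFunc ℂ) (c i) * G i) ≤ P.ord (G i0) := by
  classical
  obtain ⟨i1, hi1, hmin⟩ := Finset.exists_min_image S (fun i => P.ord (G i)) ⟨i0, hi0⟩
  have hterm : ∀ i ∈ S, P.ord (algebraMap ℂ (RatFunc ℂ) (c i) * G i) = P.ord (G i) := by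
    intro i hi
    rw [P.ord_mul ((map_ne_zero _).2 (hc i hi)) (hG i hi), ord_const_ne P (hc i hi), zero_add]
  have hne : ∀ i ∈ S, algebraMap ℂ (RatFunc ℂ) (c i) * G i ≠ 0 := fun i hi =>
    mul_ne_zero ((map_ne_zero _).2 (hc i hi)) (hG i hi)
  have hrest : Ge P (P.ord (G i1) + 1)
      (∑ i ∈ S.erase i1, algebraMap ℂ (RatFunc ℂ) (c i) * G i) := by
    refine Ge.sum _ _ fun i hi => Or.inr ?_
    have hiS := Finset.mem_of_mem_erase hi
    rw [hterm i hiS]
    have h1 := hmin i hiS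
    have h2 : P.ord (G i) ≠ P.ord (G i1) := fun h =>
      (Finset.ne_of_mem_erase hi) (hinj i hiS i1 hi1 h)
    omega
  rw [← Finset.add_sum_erase S _ hi1]
  rcases hrest with h | h
  · rw [h, add_zero, hterm i1 hi1]
    exact ⟨hne i1 hi1, hmin i0 hi0⟩
  · by_cases h0 : ∑ i ∈ S.erase i1, algebraMap ℂ (RatFunc ℂ) (c i) * G i = 0
    · rw [h0, add_zero, hterm i1 hi1]
      exact ⟨hne i1 hi1, hmin i0 hi0⟩
    · have h1 := P.ord_add_eq (hne i1 hi1) h0 (by rw [hterm i1 hi1]; omega)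
      rw [h1.2, hterm i1 hi1]
      exact ⟨h1.1, hmin i0 hi0⟩

end Pool.Agent.Q51.VX
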