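import Mathlib
import Pool.Agent.Q51.VX.Line
import Pool.Agent.Q51.HG.All
import Pool.Agent.Q51.HG.Ent

set_option autoImplicit false

/-!
# Punctured curves given by vectors of integral weights
-/

namespace Pool.Agent.Q51.VX

open MvPolynomial FF Pool.Agent.Q51.HG Pool.Agent.H533R3.SL
open Pool.Agent.W603.LV Pool.Agent.W603.PV Pool.Agent.W603.CZ
open Pool.Agent.TH182.VD (CI)

attribute [local instance] isFF_rf

variable {n q r M : ℕ}

/-- the exponents of the function with index `j` -/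
def mx (β : Fin M → Fin r → ℤ) (k : ℕ) (l : Fin r → ℕ) (j : Fin r) : Option (Fin M) → ℤ
  | none => M * l j
  | some v => -(k * β v j + l j)

theorem mx_sum (β : Fin M → Fin r → ℤ) (k : ℕ) (l : Fin r → ℕ) (hβ : ∀ j, ∑ v, β v j = 0)
    (j : Fin r) : ∑ o, mx β k l j o = 0 := by
  rw [Fintype.sum_option]
  simp only [mx]
  rw [Finset.sum_neg_distrib, Finset.sum_add_distrib, ← Finset.mul_sum, hβ j]
  simp

/-- the exponents of the monomials of weight `t` -/
noncomputable def EE (D : ℕ) (β : Fin M → Fin r → ℤ) (k : ℕ) (l : Fin r → ℕ) (t : ℕ) :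
    Option (Fin M) → ℤ :=
  open Classical in
  if h : ∃ α : Fin r → ℕ, (∀ j, α j ≤ D) ∧ ∑ j, α j * l j = t then
    fun o => ∑ j, (h.choose j : ℤ) * mx β k l j o
  else 0

section

variable {D : ℕ} {β : Fin M → Fin r → ℤ} {k : ℕ} {l : Fin r → ℕ}

theorem mx_some (α : Fin r → ℕ) (v : Fin M) : ∑ j, (α j : ℤ) * mx β k l j (some v) =
    -(k * ∑ j, (α j : ℤ) * β v j + ((∑ j, α j * l j : ℕ) : ℤ)) := by
  simp only [mx]
  push_cast
  rw [Finset.mul_sum, ← Finset.sum_add_distrib, ← Finset.sum_neg_distrib]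
  exact Finset.sum_congr rfl fun j _ => by ring

theorem mx_none (α : Fin r → ℕ) : ∑ j, (α j : ℤ) * mx β k l j none =
    M * ((∑ j, α j * l j : ℕ) : ℤ) := by
  simp only [mx]
  push_cast
  rw [Finset.mul_sum]
  exact Finset.sum_congr rfl fun j _ => by ring

variable (hβ : ∀ α α' : Fin r → ℕ, (∀ j, α j ≤ D) → (∀ j, α' j ≤ D) →
  ∑ j, α j * l j = ∑ j, α' j * l j → ∀ v, ∑ j, (α j : ℤ) * β v j = ∑ j, (α' j : ℤ) * β v j)

include hβ in
theorem EE_eq (α : Fin r → ℕ) (hα : ∀ j, α j ≤ D) :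
    EE D β k l (∑ j, α j * l j) = fun o => ∑ j, (α j : ℤ) * mx β k l j o := by
  have h : ∃ α' : Fin r → ℕ, (∀ j, α' j ≤ D) ∧ ∑ j, α' j * l j = ∑ j, α j * l j := ⟨α, hα, rfl⟩
  unfold EE
  rw [dif_pos h]
  have h1 := h.choose_spec
  funext o
  rcases o with _ | v
  · rw [mx_none, mx_none, h1.2]
  · rw [mx_some, mx_some, h1.2, hβ _ _ h1.1 hα h1.2 v]

theorem sum_EE (hβ0 : ∀ j, ∑ v, β v j = 0) (t : ℕ) : ∑ o, EE D β k l t o = 0 := by
  unfold EE
  split_ifs with h
  · rw [Finset.sum_comm]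
    refine Finset.sum_eq_zero fun j _ => ?_
    rw [← Finset.mul_sum, mx_sum β k l hβ0, mul_zero]
  · simp

/-- the point -/
noncomputable def xx (p : Option (Fin M) → ℂ) (β : Fin M → Fin r → ℤ) (k : ℕ) (l : Fin r → ℕ)
    (c : Fin r → Fin (n + 1) → ℂ) (i : Fin (n + 1)) : RatFunc ℂ :=
  ∑ j, algebraMap ℂ (RatFunc ℂ) (c j i) * gg p (mx β k l j)

theorem aeval_xx0 (g : Fin r → RatFunc ℂ) (c : Fin r → Fin (n + 1) → ℂ)
    (F : MvPolynomial (Fin (n + 1)) ℂ) :
    aeval (fun i => ∑ j, algebraMap ℂ (RatFunc ℂ) (c j i) * g j) F =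
      ∑ α ∈ (GU c F).support, algebraMap ℂ (RatFunc ℂ) (coeff α (GU c F)) * ∏ j, g j ^ α j := by
  have h1 : aeval (fun i => ∑ j, algebraMap ℂ (RatFunc ℂ) (c j i) * g j) F =
      (aeval g : MvPolynomial (Fin r) ℂ →ₐ[ℂ] RatFunc ℂ) (GU c F) := by
    unfold GU
    rw [comp_aeval_apply]
    congr 2
    funext i
    rw [map_sum]
    refine Finset.sum_congr rfl fun j _ => ?_
    rw [map_mul, aeval_X, ← MvPolynomial.algebraMap_eq, AlgHom.commutes]
  rw [h1, MvPolynomial.aeval_def, MvPolynomial.eval₂_eq']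

include hβ in
/-- the value of a form at the point, sorted by weights -/
theorem aeval_xx (p : Option (Fin M) → ℂ) (c : Fin r → Fin (n + 1) → ℂ)
    (F : MvPolynomial (Fin (n + 1)) ℂ) (e : ℕ) (he : e ≤ D) (hF : F.IsHomogeneous e) :
    aeval (xx p β k l c) F = ∑ t ∈ (aeval (cur c l) F).support,
      algebraMap ℂ (RatFunc ℂ) ((aeval (cur c l) F).coeff t) * gg p (EE D β k l t) := by
  let Λ : Polynomial ℂ →ₗ[ℂ] RatFunc ℂ :=
    Polynomial.lsum (fun t => LinearMap.toSpanSingleton ℂ (RatFunc ℂ) (gg p (EE D β k l t)))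
  have hΛ : ∀ f : Polynomial ℂ, Λ f = ∑ t ∈ f.support,
      algebraMap ℂ (RatFunc ℂ) (f.coeff t) * gg p (EE D β k l t) := by
    intro f
    show Polynomial.lsum _ f = _
    rw [Polynomial.lsum_apply, Polynomial.sum_def]
    refine Finset.sum_congr rfl fun t _ => ?_
    rw [LinearMap.toSpanSingleton_apply, Algebra.smul_def]
  have hΛ1 : ∀ (b : ℂ) (t : ℕ), Λ (Polynomial.C b * Polynomial.X ^ t) =
      algebraMap ℂ (RatFunc ℂ) b * gg p (EE D β k l t) := by
    intro b t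
    rw [Polynomial.C_mul_X_pow_eq_monomial]
    show Polynomial.lsum _ _ = _
    rw [Polynomial.lsum_apply, Polynomial.sum_monomial_index]
    · rw [LinearMap.toSpanSingleton_apply, Algebra.smul_def]
    · simp
  rw [← hΛ, aeval_cur, map_sum]
  unfold xx
  rw [aeval_xx0]
  refine Finset.sum_congr rfl fun α hα => ?_
  rw [hΛ1, gg_prod, EE_eq hβ α fun j => (GU_deg c F e hF α hα j).trans he]

theorem exists_exp (c : Fin r → Fin (n + 1) → ℂ) (l : Fin r → ℕ)
    (F : MvPolynomial (Fin (n + 1)) ℂ) (t : ℕ) (ht : (aeval (cur c l) F).coeff t ≠ 0) :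
    ∃ α ∈ (GU c F).support, ∑ j, α j * l j = t := by
  rw [coeff_cur] at ht
  obtain ⟨α, hα, h1⟩ := Finset.exists_ne_zero_of_sum_ne_zero ht
  refine ⟨α, hα, ?_⟩
  by_contra h2
  rw [if_neg h2] at h1
  exact h1 rfl

include hβ in
/-- nonvanishing and an upper bound of the order -/
theorem val_lower (p : Option (Fin M) → ℂ) (hp : Function.Injective p)
    (c : Fin r → Fin (n + 1) → ℂ) (F : MvPolynomial (Fin (n + 1)) ℂ) (e : ℕ) (he : e ≤ D)
    (hF : F.IsHomogeneous e) (hk : D * ∑ j, l j < k) (v : Fin M) (t : ℕ)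
    (ht : (aeval (cur c l) F).coeff t ≠ 0) :
    aeval (xx p β k l c) F ≠ 0 ∧
      (pl (p (some v))).ord (aeval (xx p β k l c) F) ≤ EE D β k l t (some v) := by
  rw [aeval_xx hβ p c F e he hF]
  have h := ord_sum (pl (p (some v))) (aeval (cur c l) F).support
    (fun t => (aeval (cur c l) F).coeff t) (fun t => gg p (EE D β k l t))
    (fun t ht => Polynomial.mem_support_iff.1 ht) (fun _ _ => gg_ne p _) (fun t1 ht1 t2 ht2 h12 => by
      rw [ord_gg_at p hp, ord_gg_at p hp] at h12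
      obtain ⟨α1, hα1, rfl⟩ := exists_exp c l F t1 (Polynomial.mem_support_iff.1 ht1)
      obtain ⟨α2, hα2, rfl⟩ := exists_exp c l F t2 (Polynomial.mem_support_iff.1 ht2)
      have hb : ∀ α ∈ (GU c F).support, (∀ j, α j ≤ D) ∧ ∑ j, α j * l j ≤ D * ∑ j, l j := by
        intro α hα
        have h1 : ∀ j, α j ≤ D := fun j => (GU_deg c F e hF α hα j).trans he
        refine ⟨h1, ?_⟩
        rw [Finset.mul_sum]
        exact Finset.sum_le_sum fun j _ => Nat.mul_le_mul_right _ (h1 j)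
      rw [EE_eq hβ _ (hb α1 hα1).1, EE_eq hβ _ (hb α2 hα2).1] at h12
      simp only at h12
      rw [mx_some, mx_some] at h12
      have hb1 := (hb α1 hα1).2
      have hb2 := (hb α2 hα2).2
      generalize ∑ j, α1 j * l j = t1 at *
      generalize ∑ j, α2 j * l j = t2 at *
      generalize ∑ j, (α1 j : ℤ) * β v j = s1 at *
      generalize ∑ j, (α2 j : ℤ) * β v j = s2 at *
      by_cases hs : s1 = s2
      · subst hs
        omega
      · exfalso
        have h3 : (k : ℤ) * (s1 - s2) = (t2 : ℤ) - t1 := by linarith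
        have h4 : |(k : ℤ) * (s1 - s2)| < k := by
          rw [h3, abs_lt]
          constructor <;> omega
        rw [abs_mul, Nat.abs_cast] at h4
        have h5 : 1 ≤ |s1 - s2| := Int.one_le_abs (sub_ne_zero.2 hs)
        have h6 : (0 : ℤ) ≤ k := Nat.cast_nonneg k
        nlinarith) t (Polynomial.mem_support_iff.2 ht)
  rw [ord_gg_at p hp] at h
  exact h

include hβ in
/-- a lower bound of the order -/
theorem val_upper (p : Option (Fin M) → ℂ) (hp : Function.Injective p)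
    (c : Fin r → Fin (n + 1) → ℂ) (F : MvPolynomial (Fin (n + 1)) ℂ) (e : ℕ) (he : e ≤ D)
    (hF : F.IsHomogeneous e) (v : Fin M) (h0 : aeval (xx p β k l c) F ≠ 0) :
    ∃ α ∈ (GU c F).support, (aeval (cur c l) F).coeff (∑ j, α j * l j) ≠ 0 ∧
      EE D β k l (∑ j, α j * l j) (some v) ≤
        (pl (p (some v))).ord (aeval (xx p β k l c) F) := by
  rw [aeval_xx hβ p c F e he hF] at h0 ⊢
  have hne : (aeval (cur c l) F).support.Nonempty := by
    rw [Finset.nonempty_iff_ne_empty]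
    intro h
    rw [h, Finset.sum_empty] at h0
    exact h0 rfl
  obtain ⟨t, ht, hmin⟩ := Finset.exists_min_image _ (fun t => EE D β k l t (some v)) hne
  obtain ⟨α, hα, rfl⟩ := exists_exp c l F t (Polynomial.mem_support_iff.1 ht)
  refine ⟨α, hα, Polynomial.mem_support_iff.1 ht, ?_⟩
  have h1 : Ge (pl (p (some v))) (EE D β k l (∑ j, α j * l j) (some v))
      (∑ t ∈ (aeval (cur c l) F).support,
      algebraMap ℂ (RatFunc ℂ) ((aeval (cur c l) F).coeff t) * gg p (EE D β k l t)) := by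
    refine Ge.sum _ _ fun t' ht' => ?_
    have h2 : Ge (pl (p (some v))) (0 + EE D β k l (∑ j, α j * l j) (some v))
        (algebraMap ℂ (RatFunc ℂ) ((aeval (cur c l) F).coeff t') * gg p (EE D β k l t')) := by
      refine (Ge.const _).mul (Or.inr ?_)
      rw [ord_gg_at p hp]
      exact hmin t' ht'
    rwa [zero_add] at h2
  exact h1.resolve_left h0

include hβ in
theorem val_other (p : Option (Fin M) → ℂ) (hp : Function.Injective p)
    (hβ0 : ∀ j, ∑ v, β v j = 0)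
    (c : Fin r → Fin (n + 1) → ℂ) (F : MvPolynomial (Fin (n + 1)) ℂ) (e : ℕ) (he : e ≤ D)
    (hF : F.IsHomogeneous e) (P : Pls) (hP : ∀ v : Fin M, P ≠ pl (p (some v))) :
    Ge P 0 (aeval (xx p β k l c) F) := by
  rw [aeval_xx hβ p c F e he hF]
  refine Ge.sum _ _ fun t ht => ?_
  have h2 : Ge P (0 + 0) (algebraMap ℂ (RatFunc ℂ) ((aeval (cur c l) F).coeff t) *
      gg p (EE D β k l t)) := by
    refine (Ge.const _).mul (Or.inr ?_)
    by_cases h : P = pl (p none)
    · rw [h, ord_gg_at p hp]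
      obtain ⟨α, hα, rfl⟩ := exists_exp c l F t (Polynomial.mem_support_iff.1 ht)
      rw [EE_eq hβ _ fun j => (GU_deg c F e hF α hα j).trans he]
      simp only
      rw [mx_none]
      positivity
    · rw [ord_gg_other p P (fun o => by
        rcases o with _ | v
        · exact h
        · exact hP v) _ (sum_EE hβ0 t)]
  simpa using h2

end

/-- the punctures -/
noncomputable def pp (M : ℕ) (o : Option (Fin M)) : ℂ := o.elim 0 (fun v => ((v : ℕ) : ℂ) + 1)

theorem pp_inj (M : ℕ) : Function.Injective (pp M) := by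
  intro o o' h
  rcases o with _ | v <;> rcases o' with _ | v'
  · rfl
  · exfalso
    simp only [pp, Option.elim_none, Option.elim_some] at h
    exact (Nat.cast_add_one_ne_zero (R := ℂ) (v' : ℕ)) h.symm
  · exfalso
    simp only [pp, Option.elim_none, Option.elim_some] at h
    exact (Nat.cast_add_one_ne_zero (R := ℂ) (v : ℕ)) h
  · simp only [pp, Option.elim_some] at h
    have h1 : ((v : ℕ) : ℂ) = ((v' : ℕ) : ℂ) := by linear_combination h
    have h2 : (v : ℕ) = v' := by exact_mod_cast h1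
    rw [Fin.ext h2]

/-- **The inequality for integral weights.** -/
theorem int_ineq (d : Fin q → ℕ) (a : CI n d → ℂ) (ha : AlgebraicIndependent ℚ a)
    (Z : Finset (Fin q)) (D : ℕ) (hdD : ∀ i, d i ≤ D) (hD : 1 ≤ D)
    (hκ0 : 0 ≤ (∑ i, (d i : ℤ)) + Z.card - 2 * n)
    (hκ : (∑ i, (d i : ℤ)) + Z.card - 2 * n ≤ ∑ i ∈ Finset.univ \ Z, (d i : ℤ))
    (c : Fin r → Fin (n + 1) → ℂ) (l : Fin r → ℕ)
    (hZ : ∀ i ∈ Z, aeval (cur c l) (gF n d a i) = 0)
    (hC : ∀ i, i ∉ Z → aeval (cur c l) (gF n d a i) ≠ 0)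
    (β : Fin M → Fin r → ℤ) (hβ0 : ∀ j, ∑ v, β v j = 0)
    (hβ : ∀ α α' : Fin r → ℕ, (∀ j, α j ≤ D) → (∀ j, α' j ≤ D) →
      ∑ j, α j * l j = ∑ j, α' j * l j → ∀ v, ∑ j, (α j : ℤ) * β v j = ∑ j, (α' j : ℤ) * β v j)
    (jj : Fin M → Fin r) (hjj : ∀ v, ∃ m, (cur c l m).coeff (l (jj v)) ≠ 0)
    (B : Fin M → Fin q → ℤ)
    (hB : ∀ v i, i ∉ Z → ∀ α : Fin r → ℕ, (∀ j, α j ≤ D) → ∑ j, α j = d i →
      (aeval (cur c l) (gF n d a i)).coeff (∑ j, α j * l j) ≠ 0 →
      ∑ j, (α j : ℤ) * β v j ≤ B v i) :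
    ((∑ i, (d i : ℤ)) + Z.card - 2 * n) * ∑ v, β v (jj v) ≤
      ∑ i ∈ Finset.univ \ Z, ∑ v, B v i := by
  classical
  set κ : ℤ := (∑ i, (d i : ℤ)) + Z.card - 2 * n with hκdef
  rcases Nat.eq_zero_or_pos M with hM | hM
  · subst hM
    simp
  by_contra hcon
  push Not at hcon
  set Λ : ℕ := D * ∑ j, l j with hΛ
  set k : ℕ := Λ + (M + q * M * Λ) + 1 with hk
  have hkΛ : D * ∑ j, l j < k := by omega
  have hp := pp_inj M
  set x := xx (pp M) β k l c with hx
  have hXm : ∀ m, aeval x (X m : MvPolynomial (Fin (n + 1)) ℂ) = x m := fun m => aeval_X _ _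
  have hcm : ∀ m, aeval (cur c l) (X m : MvPolynomial (Fin (n + 1)) ℂ) = cur c l m := fun m =>
    aeval_X _ _
  have hhm : ∀ m, (X m : MvPolynomial (Fin (n + 1)) ℂ).IsHomogeneous 1 := fun m =>
    isHomogeneous_X ℂ m
  -- the point is not zero
  have hx0 : x ≠ 0 := by
    obtain ⟨m, hm⟩ := hjj ⟨0, hM⟩
    have h1 := (val_lower hβ (pp M) hp c (X m) 1 hD (hhm m) hkΛ ⟨0, hM⟩ _
      (by rw [hcm]; exact hm)).1
    intro h
    apply h1
    rw [← hx, hXm, h]
    rfl
  have hxZ : ∀ i, aeval x (gF n d a i) = 0 ↔ i ∈ Z := by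
    intro i
    constructor
    · intro h
      by_contra hi
      obtain ⟨t, ht⟩ : ∃ t, (aeval (cur c l) (gF n d a i)).coeff t ≠ 0 := by
        by_contra h1
        push Not at h1
        exact hC i hi (Polynomial.ext h1)
      exact (val_lower hβ (pp M) hp c (gF n d a i) (d i) (hdD i) (gF_hom d a i) hkΛ ⟨0, hM⟩ t
        ht).1 h
    · intro hi
      rw [hx, aeval_xx hβ (pp M) c (gF n d a i) (d i) (hdD i) (gF_hom d a i), hZ i hi]
      simp
  set T : Finset Pls := Finset.univ.image fun v : Fin M => pl (pp M (some v)) with hT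
  have hinj : Function.Injective fun v : Fin M => pl (pp M (some v)) := by
    intro v v' h
    have := hp (pl_inj h)
    exact Option.some_injective _ this
  have hsumT : ∀ f : Pls → ℤ, ∑ P ∈ T, f P = ∑ v : Fin M, f (pl (pp M (some v))) := by
    intro f
    rw [hT, Finset.sum_image fun v _ v' _ h => hinj h]
  have hTcard : T.card ≤ M := by
    rw [hT]
    refine Finset.card_image_le.trans ?_
    simp
  have h := punct d a ha Z hκ T x hx0 hxZ (fun P hP => by
    obtain ⟨m, hm, hm2⟩ := exists_pord P (Function.ne_iff.1 hx0)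
    rw [← hm2]
    have h1 := val_other hβ (pp M) hp hβ0 (k := k) c (X m) 1 hD (hhm m) P (fun v hv => hP (by
      rw [hT, hv]
      exact Finset.mem_image_of_mem _ (Finset.mem_univ v)))
    rw [← hx, hXm] at h1
    exact h1.resolve_left hm)
  rw [hsumT, ← hκdef] at h
  simp only [hsumT] at h
  -- the two bounds
  have hlow : ∀ v : Fin M, (k : ℤ) * β v (jj v) ≤ -pord (pl (pp M (some v))) x := by
    intro v
    obtain ⟨m, hm⟩ := hjj v
    have h1 := val_lower hβ (pp M) hp c (X m) 1 hD (hhm m) hkΛ v _ (by rw [hcm]; exact hm)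
    rw [← hx, hXm] at h1
    have h2 := pord_le (pl (pp M (some v))) h1.1
    have h3 := h2.trans h1.2
    have h4 : ∑ j, (if j = jj v then 1 else 0) * l j = l (jj v) := by simp
    rw [← h4, EE_eq hβ _ fun j => by split_ifs <;> omega] at h3
    simp only at h3
    rw [mx_some] at h3
    have h5 : ∑ j, ((if j = jj v then (1 : ℕ) else 0 : ℕ) : ℤ) * β v j = β v (jj v) := by
      simp
    rw [h5] at h3
    have h6 : (0 : ℤ) ≤ ((∑ j, (if j = jj v then 1 else 0) * l j : ℕ) : ℤ) := Nat.cast_nonneg _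
    linarith
  have hup : ∀ i ∈ Finset.univ \ Z, ∀ v : Fin M,
      -(pl (pp M (some v))).ord (aeval x (gF n d a i)) ≤ k * B v i + Λ := by
    intro i hi v
    have hiZ := (Finset.mem_sdiff.1 hi).2
    obtain ⟨α, hα, h1, h2⟩ := val_upper hβ (k := k) (pp M) hp c (gF n d a i) (d i) (hdD i)
      (gF_hom d a i) v (fun h => hiZ ((hxZ i).1 h))
    have h3 : ∀ j, α j ≤ D := fun j => (GU_deg c _ (d i) (gF_hom d a i) α hα j).trans (hdD i)
    have h4 : ∑ j, α j = d i := GU_sum c _ (d i) (gF_hom d a i) α hα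
    have h5 := hB v i hiZ α h3 h4 h1
    rw [EE_eq hβ _ h3] at h2
    simp only at h2
    rw [mx_some] at h2
    have h6 : ((∑ j, α j * l j : ℕ) : ℤ) ≤ Λ := by
      have : ∑ j, α j * l j ≤ D * ∑ j, l j := by
        rw [Finset.mul_sum]
        exact Finset.sum_le_sum fun j _ => Nat.mul_le_mul_right _ (h3 j)
      exact_mod_cast this
    have h7 : (k : ℤ) * ∑ j, (α j : ℤ) * β v j ≤ k * B v i :=
      mul_le_mul_of_nonneg_left h5 (Nat.cast_nonneg k)
    rw [← hx] at h2
    linarith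
  have h1 : κ * (k * ∑ v, β v (jj v)) ≤ κ * ∑ v, -pord (pl (pp M (some v))) x := by
    refine mul_le_mul_of_nonneg_left ?_ hκ0
    rw [Finset.mul_sum]
    exact Finset.sum_le_sum fun v _ => hlow v
  have h2 : ∑ i ∈ Finset.univ \ Z, ∑ v : Fin M, -(pl (pp M (some v))).ord (aeval x (gF n d a i)) ≤
      k * ∑ i ∈ Finset.univ \ Z, ∑ v, B v i + q * M * Λ := by
    have h3 : ∑ i ∈ Finset.univ \ Z, ∑ v : Fin M,
        -(pl (pp M (some v))).ord (aeval x (gF n d a i)) ≤
        ∑ i ∈ Finset.univ \ Z, ∑ v : Fin M, ((k : ℤ) * B v i + Λ) :=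
      Finset.sum_le_sum fun i hi => Finset.sum_le_sum fun v _ => hup i hi v
    refine h3.trans ?_
    have h4 : ∑ i ∈ Finset.univ \ Z, ∑ v : Fin M, ((k : ℤ) * B v i + Λ) =
        k * ∑ i ∈ Finset.univ \ Z, ∑ v, B v i + (Finset.univ \ Z).card * (M * Λ) := by
      simp only [Finset.sum_add_distrib, Finset.sum_const, Finset.mul_sum, Finset.card_univ,
        Fintype.card_fin, smul_eq_mul, nsmul_eq_mul]
    rw [h4]
    have h5 : (((Finset.univ \ Z).card : ℕ) : ℤ) ≤ q := by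
      have : (Finset.univ \ Z).card ≤ q := by
        refine (Finset.card_le_univ _).trans ?_
        simp
      exact_mod_cast this
    have h6 : (0 : ℤ) ≤ M * Λ := by positivity
    nlinarith [mul_le_mul_of_nonneg_right h5 h6]
  have h3 : (T.card : ℤ) ≤ M := by exact_mod_cast hTcard
  have h4 : (k : ℤ) * (κ * ∑ v, β v (jj v) - ∑ i ∈ Finset.univ \ Z, ∑ v, B v i) ≤
      M + q * M * Λ := by linarith
  have h5 : 1 ≤ κ * ∑ v, β v (jj v) - ∑ i ∈ Finset.univ \ Z, ∑ v, B v i := by linarith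
  have h6 : (k : ℤ) = Λ + (M + q * M * Λ) + 1 := by
    rw [hk]
    push_cast
    ring
  have h7 : (0 : ℤ) ≤ Λ := Nat.cast_nonneg _
  have h8 : (0 : ℤ) ≤ k := Nat.cast_nonneg _
  nlinarith

end Pool.Agent.Q51.VX
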