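import Mathlib
import Pool.Agent.Q51.VX.Curve

set_option autoImplicit false

/-!
# Real weights
-/

namespace Pool.Agent.Q51.VX

open MvPolynomial FF Pool.Agent.Q51.HG Pool.Agent.H533R3.SL
open Pool.Agent.TH182.VD (CI)

/-- rational approximations which respect the rational linear relations -/
theorem approx {κ : Type} [Fintype κ] (b : κ → ℝ) (ε : ℝ) (hε : 0 < ε) :
    ∃ (N : ℕ) (β : κ → ℤ), 0 < N ∧ (∀ x, |b x - β x / N| ≤ ε) ∧
      ∀ c : κ → ℤ, ∑ x, (c x : ℝ) * b x = 0 → ∑ x, c x * β x = 0 := by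
  classical
  let W : Submodule ℚ ℝ := Submodule.span ℚ (Set.range b)
  have hW : Module.Finite ℚ W := Module.Finite.span_of_finite ℚ (Set.finite_range b)
  let e := Module.finBasis ℚ W
  let bw : κ → W := fun x => ⟨b x, Submodule.subset_span ⟨x, rfl⟩⟩
  let R : κ → Fin (Module.finrank ℚ W) → ℚ := fun x i => e.repr (bw x) i
  have hR : ∀ x, b x = ∑ i, (R x i : ℝ) * (e i : ℝ) := by
    intro x
    have h1 := e.sum_repr (bw x)
    have h2 := congrArg (Subtype.val) h1
    rw [AddSubmonoidClass.coe_finsetSum] at h2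
    rw [← show ((bw x : W) : ℝ) = b x from rfl, ← h2]
    refine Finset.sum_congr rfl fun i _ => ?_
    rw [Submodule.coe_smul, Rat.smul_def]
  set S : ℝ := ∑ x, ∑ i, |(R x i : ℝ)| with hS
  have hS0 : 0 ≤ S := Finset.sum_nonneg fun _ _ => Finset.sum_nonneg fun _ _ => abs_nonneg _
  have hδ : 0 < ε / (S + 1) := by positivity
  choose ρ hρ using fun i => exists_rat_near (e i : ℝ) hδ
  let b' : κ → ℚ := fun x => ∑ i, R x i * ρ i
  have hb' : ∀ x, |b x - b' x| ≤ ε := by
    intro x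
    have h1 : b x - b' x = ∑ i, (R x i : ℝ) * ((e i : ℝ) - ρ i) := by
      rw [hR x]
      simp only [b']
      push_cast
      rw [← Finset.sum_sub_distrib]
      exact Finset.sum_congr rfl fun i _ => by ring
    rw [h1]
    refine (Finset.abs_sum_le_sum_abs _ _).trans ?_
    have h2 : ∀ i ∈ Finset.univ, |(R x i : ℝ) * ((e i : ℝ) - ρ i)| ≤
        |(R x i : ℝ)| * (ε / (S + 1)) := by
      intro i _
      rw [abs_mul]
      exact mul_le_mul_of_nonneg_left (hρ i).le (abs_nonneg _)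
    refine (Finset.sum_le_sum h2).trans ?_
    rw [← Finset.sum_mul]
    have h3 : ∑ i, |(R x i : ℝ)| ≤ S :=
      Finset.single_le_sum (f := fun x => ∑ i, |(R x i : ℝ)|)
        (fun _ _ => Finset.sum_nonneg fun _ _ => abs_nonneg _) (Finset.mem_univ x)
    rw [mul_div_assoc', div_le_iff₀ (by positivity)]
    nlinarith
  have hrel : ∀ c : κ → ℤ, ∑ x, (c x : ℝ) * b x = 0 → ∑ x, (c x : ℚ) * b' x = 0 := by
    intro c hc
    have h1 : ∑ x, (c x : ℚ) • bw x = 0 := by
      apply Subtype.ext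
      rw [AddSubmonoidClass.coe_finsetSum]
      simp only [Submodule.coe_smul, Rat.smul_def, ZeroMemClass.coe_zero]
      rw [← hc]
      refine Finset.sum_congr rfl fun x _ => ?_
      push_cast
      rfl
    have h2 : ∀ i, ∑ x, (c x : ℚ) * R x i = 0 := by
      intro i
      have h3 := congrArg (fun w => e.repr w i) h1
      simp only [map_sum, map_smul, map_zero, Finsupp.coe_zero, Pi.zero_apply] at h3
      rw [Finsupp.finsetSum_apply] at h3
      simpa using h3
    simp only [b']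
    simp_rw [Finset.mul_sum]
    rw [Finset.sum_comm]
    refine Finset.sum_eq_zero fun i _ => ?_
    have h4 := h2 i
    have h5 : ∑ x, (c x : ℚ) * (R x i * ρ i) = (∑ x, (c x : ℚ) * R x i) * ρ i := by
      rw [Finset.sum_mul]
      exact Finset.sum_congr rfl fun x _ => by ring
    rw [h5, h4, zero_mul]
  -- common denominator
  obtain ⟨N, hN⟩ : ∃ N : ℕ, N = ∏ x, (b' x).den := ⟨_, rfl⟩
  have hN0 : 0 < N := by
    rw [hN]
    exact Finset.prod_pos fun x _ => (b' x).pos
  have hc : ∀ x, ∃ z : ℤ, (z : ℚ) = N * b' x := by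
    intro x
    obtain ⟨e', he'⟩ : (b' x).den ∣ N := by
      rw [hN]
      exact Finset.dvd_prod_of_mem _ (Finset.mem_univ x)
    refine ⟨e' * (b' x).num, ?_⟩
    rw [he']
    push_cast
    have h2 : ((b' x).num : ℚ) = b' x * (b' x).den := (Rat.mul_den_eq_num (b' x)).symm
    rw [h2]
    ring
  choose β hβ using hc
  have hNr : (N : ℝ) ≠ 0 := by exact_mod_cast hN0.ne'
  refine ⟨N, β, hN0, fun x => ?_, fun c hc => ?_⟩
  · have h1 : ((β x : ℤ) : ℝ) = N * (b' x : ℝ) := by exact_mod_cast hβ x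
    rw [h1, mul_div_cancel_left₀ _ hNr]
    exact hb' x
  · have h1 := hrel c hc
    have h2 : ((∑ x, c x * β x : ℤ) : ℚ) = N * ∑ x, (c x : ℚ) * b' x := by
      push_cast
      rw [Finset.mul_sum]
      refine Finset.sum_congr rfl fun x _ => ?_
      rw [hβ x]
      ring
    rw [h1, mul_zero] at h2
    exact_mod_cast h2

variable {n q r M : ℕ}

/-- **The inequality for real weights.** -/
theorem real_ineq (d : Fin q → ℕ) (a : CI n d → ℂ) (ha : AlgebraicIndependent ℚ a)
    (Z : Finset (Fin q)) (D : ℕ) (hdD : ∀ i, d i ≤ D) (hD : 1 ≤ D)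
    (hκ0 : 0 ≤ (∑ i, (d i : ℤ)) + Z.card - 2 * n)
    (hκ : (∑ i, (d i : ℤ)) + Z.card - 2 * n ≤ ∑ i ∈ Finset.univ \ Z, (d i : ℤ))
    (c : Fin r → Fin (n + 1) → ℂ) (l : Fin r → ℕ)
    (hZ : ∀ i ∈ Z, aeval (cur c l) (gF n d a i) = 0)
    (hC : ∀ i, i ∉ Z → aeval (cur c l) (gF n d a i) ≠ 0)
    (b : Fin M → Fin r → ℝ) (hb0 : ∀ j, ∑ v, b v j = 0)
    (hb : ∀ α α' : Fin r → ℕ, (∀ j, α j ≤ D) → (∀ j, α' j ≤ D) →
      ∑ j, α j * l j = ∑ j, α' j * l j → ∀ v, ∑ j, (α j : ℝ) * b v j = ∑ j, (α' j : ℝ) * b v j)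
    (jj : Fin M → Fin r) (hjj : ∀ v, ∃ m, (cur c l m).coeff (l (jj v)) ≠ 0)
    (B : Fin M → Fin q → ℝ)
    (hB : ∀ v i, i ∉ Z → ∀ α : Fin r → ℕ, (∀ j, α j ≤ D) → ∑ j, α j = d i →
      (aeval (cur c l) (gF n d a i)).coeff (∑ j, α j * l j) ≠ 0 →
      ∑ j, (α j : ℝ) * b v j ≤ B v i) :
    (((∑ i, (d i : ℤ)) + Z.card - 2 * n : ℤ) : ℝ) * ∑ v, b v (jj v) ≤
      ∑ i ∈ Finset.univ \ Z, ∑ v, B v i := by
  classical
  set κ : ℤ := (∑ i, (d i : ℤ)) + Z.card - 2 * n with hκdef
  -- the bound with an error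
  have key : ∀ ε : ℝ, 0 < ε → (κ : ℝ) * ∑ v, b v (jj v) ≤
      ∑ i ∈ Finset.univ \ Z, ∑ v, B v i + (κ * M + q * (M * (r * D))) * ε := by
    intro ε hε
    obtain ⟨N, β', hN, hβb, hrel⟩ := approx (fun x : Fin M × Fin r => b x.1 x.2) ε hε
    set β : Fin M → Fin r → ℤ := fun v j => β' (v, j) with hβ
    have hNr : (0 : ℝ) < N := by exact_mod_cast hN
    have hβb' : ∀ v j, |b v j - β v j / N| ≤ ε := fun v j => hβb (v, j)
    have hβ0 : ∀ j, ∑ v, β v j = 0 := by
      intro j
      have h1 := hrel (fun x => if x.2 = j then 1 else 0) (by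
        rw [Fintype.sum_prod_type]
        simpa using hb0 j)
      rw [Fintype.sum_prod_type] at h1
      simpa using h1
    have hβc : ∀ α α' : Fin r → ℕ, (∀ j, α j ≤ D) → (∀ j, α' j ≤ D) →
        ∑ j, α j * l j = ∑ j, α' j * l j →
        ∀ v, ∑ j, (α j : ℤ) * β v j = ∑ j, (α' j : ℤ) * β v j := by
      intro α α' hα hα' h v
      have h1 := hb α α' hα hα' h v
      have h2 := hrel (fun x => if x.1 = v then (α x.2 : ℤ) - α' x.2 else 0) (by
        rw [Fintype.sum_prod_type, Finset.sum_eq_single v]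
        · simp only [if_true]
          push_cast
          simp_rw [sub_mul]
          rw [Finset.sum_sub_distrib, h1, sub_self]
        · intro v' _ hv'
          simp [hv']
        · intro h
          exact absurd (Finset.mem_univ v) h)
      rw [Fintype.sum_prod_type, Finset.sum_eq_single v] at h2
      · simp only [if_true] at h2
        simp_rw [sub_mul] at h2
        rw [Finset.sum_sub_distrib] at h2
        linarith
      · intro v' _ hv'
        simp [hv']
      · intro h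
        exact absurd (Finset.mem_univ v) h
    -- the maxima
    have hmax : ∀ v i, ∃ α : Fin r → ℕ, i ∉ Z → ((∀ j, α j ≤ D) ∧ ∑ j, α j = d i ∧
        (aeval (cur c l) (gF n d a i)).coeff (∑ j, α j * l j) ≠ 0) ∧
        ∀ α' : Fin r → ℕ, (∀ j, α' j ≤ D) → ∑ j, α' j = d i →
          (aeval (cur c l) (gF n d a i)).coeff (∑ j, α' j * l j) ≠ 0 →
          ∑ j, (α' j : ℤ) * β v j ≤ ∑ j, (α j : ℤ) * β v j := by
      intro v i
      by_cases hi : i ∈ Z
      · exact ⟨0, fun h => absurd hi h⟩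
      · let S : Finset (Fin r → Fin (D + 1)) := Finset.univ.filter fun α =>
          ∑ j, (α j : ℕ) = d i ∧
            (aeval (cur c l) (gF n d a i)).coeff (∑ j, (α j : ℕ) * l j) ≠ 0
        have hS : S.Nonempty := by
          obtain ⟨t, ht⟩ : ∃ t, (aeval (cur c l) (gF n d a i)).coeff t ≠ 0 := by
            by_contra h1
            push Not at h1
            exact hC i hi (Polynomial.ext h1)
          obtain ⟨α, hα, rfl⟩ := exists_exp c l _ t ht
          have h3 : ∀ j, α j ≤ D := fun j =>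
            (GU_deg c _ (d i) (gF_hom d a i) α hα j).trans (hdD i)
          refine ⟨fun j => ⟨α j, Nat.lt_succ_of_le (h3 j)⟩, ?_⟩
          simp only [S, Finset.mem_filter, Finset.mem_univ, true_and]
          exact ⟨GU_sum c _ (d i) (gF_hom d a i) α hα, ht⟩
        obtain ⟨α, hα, hm⟩ := Finset.exists_max_image S
          (fun α => ∑ j, ((α j : ℕ) : ℤ) * β v j) hS
        refine ⟨fun j => α j, fun _ => ⟨⟨fun j => Nat.le_of_lt_succ (α j).2, ?_⟩,
          fun α' h1 h2 h3 => ?_⟩⟩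
        · have := (Finset.mem_filter.1 hα).2
          exact this
        · exact hm (fun j => ⟨α' j, Nat.lt_succ_of_le (h1 j)⟩) (by
            simp only [S, Finset.mem_filter, Finset.mem_univ, true_and]
            exact ⟨h2, h3⟩)
    choose α hα using hmax
    have h := int_ineq d a ha Z D hdD hD hκ0 hκ c l hZ hC β hβ0 hβc jj hjj
      (fun v i => ∑ j, (α v i j : ℤ) * β v j) (fun v i hi α' h1 h2 h3 =>
        (hα v i hi).2 α' h1 h2 h3)
    rw [← hκdef] at h
    have h' : (κ : ℝ) * ∑ v, (β v (jj v) : ℝ) ≤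
        ∑ i ∈ Finset.univ \ Z, ∑ v, ∑ j, (α v i j : ℝ) * β v j := by exact_mod_cast h
    have hκr : (0 : ℝ) ≤ κ := by exact_mod_cast hκ0
    have h1 : (κ : ℝ) * ∑ v, b v (jj v) ≤ (κ : ℝ) * ∑ v, (β v (jj v) : ℝ) / N + κ * M * ε := by
      have h2 : ∑ v, b v (jj v) ≤ ∑ v, ((β v (jj v) : ℝ) / N + ε) :=
        Finset.sum_le_sum fun v _ => by
          have := (abs_le.1 (hβb' v (jj v))).2
          linarith
      rw [Finset.sum_add_distrib, Finset.sum_const, Finset.card_univ, Fintype.card_fin,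
        nsmul_eq_mul] at h2
      have := mul_le_mul_of_nonneg_left h2 hκr
      linarith
    have h2 : ∀ i ∈ Finset.univ \ Z, ∀ v ∈ (Finset.univ : Finset (Fin M)),
        ∑ j, (α v i j : ℝ) * (β v j / N) ≤ B v i + r * D * ε := by
      intro i hi v _
      have hiZ := (Finset.mem_sdiff.1 hi).2
      obtain ⟨⟨h3, h4, h5⟩, -⟩ := hα v i hiZ
      have h6 := hB v i hiZ (α v i) h3 h4 h5
      have h7 : ∑ j, (α v i j : ℝ) * (β v j / N) ≤ ∑ j, ((α v i j : ℝ) * b v j + D * ε) := by
        refine Finset.sum_le_sum fun j _ => ?_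
        have h8 := (abs_le.1 (hβb' v j)).1
        have h9 : (α v i j : ℝ) ≤ D := by exact_mod_cast h3 j
        have h10 : (0 : ℝ) ≤ α v i j := Nat.cast_nonneg _
        have h11 : (β v j : ℝ) / N ≤ b v j + ε := by linarith
        have h12 := mul_le_mul_of_nonneg_left h11 h10
        nlinarith
      rw [Finset.sum_add_distrib, Finset.sum_const, Finset.card_univ, Fintype.card_fin,
        nsmul_eq_mul] at h7
      linarith
    have h3 : ∑ i ∈ Finset.univ \ Z, ∑ v, ∑ j, (α v i j : ℝ) * (β v j / N) ≤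
        ∑ i ∈ Finset.univ \ Z, ∑ v, B v i + q * (M * (r * D)) * ε := by
      refine (Finset.sum_le_sum fun i hi => Finset.sum_le_sum (h2 i hi)).trans ?_
      simp only [Finset.sum_add_distrib, Finset.sum_const, Finset.card_univ, Fintype.card_fin,
        nsmul_eq_mul]
      have h5 : (((Finset.univ \ Z).card : ℕ) : ℝ) ≤ q := by
        have : (Finset.univ \ Z).card ≤ q := by
          refine (Finset.card_le_univ _).trans ?_
          simp
        exact_mod_cast this
      have h6 : (0 : ℝ) ≤ (M : ℝ) * (r * D * ε) := by positivity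
      have h7 := mul_le_mul_of_nonneg_right h5 h6
      linarith
    have h4 : (κ : ℝ) * ∑ v, (β v (jj v) : ℝ) / N ≤
        ∑ i ∈ Finset.univ \ Z, ∑ v, ∑ j, (α v i j : ℝ) * (β v j / N) := by
      have h5 : (κ : ℝ) * ∑ v, (β v (jj v) : ℝ) / N = (κ * ∑ v, (β v (jj v) : ℝ)) / N := by
        rw [← Finset.sum_div, mul_div_assoc]
      have h6 : ∑ i ∈ Finset.univ \ Z, ∑ v, ∑ j, (α v i j : ℝ) * (β v j / N) =
          (∑ i ∈ Finset.univ \ Z, ∑ v, ∑ j, (α v i j : ℝ) * β v j) / N := by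
        simp only [Finset.sum_div, mul_div_assoc]
      rw [h5, h6]
      exact div_le_div_of_nonneg_right h' hNr.le
    linarith
  -- the limit
  by_contra hcon
  push Not at hcon
  have hκr : (0 : ℝ) ≤ κ := by exact_mod_cast hκ0
  set E : ℝ := κ * M + q * (M * (r * D)) with hE
  have hE0 : 0 ≤ E := by positivity
  set δ : ℝ := (κ : ℝ) * ∑ v, b v (jj v) - ∑ i ∈ Finset.univ \ Z, ∑ v, B v i with hδ
  have hδ0 : 0 < δ := by linarith
  have h1 := key (δ / (2 * (E + 1))) (by positivity)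
  have h2 : E * (δ / (2 * (E + 1))) ≤ δ / 2 := by
    rw [mul_div_assoc', div_le_div_iff₀ (by positivity) (by norm_num)]
    nlinarith
  linarith

end Pool.Agent.Q51.VX
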