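import Mathlib
import Pool.Agent.Q51.VX.Real

set_option autoImplicit false
set_option maxHeartbeats 1000000

/-!
# The inequality for all values of the parameters outside a hypersurface
-/

namespace Pool.Agent.Q51.VX

open MvPolynomial Pool.Agent.Q51.HG Pool.Agent.H533R3.SL
open Pool.Agent.TH182.VD (CI)

variable {n q r : ℕ}

/-- the inequality holds for all weights and a given combinatorial type -/
def Good (n : ℕ) {q r : ℕ} (D : ℕ) (d : Fin q → ℕ) (Z : Finset (Fin q)) (l : Fin r → ℕ)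
    (N : Fin q → Finset (Fin r → Fin (D + 1))) (J : Finset (Fin r)) : Prop :=
  ∀ (M : ℕ) (b : Fin M → Fin r → ℝ), (∀ j, ∑ v, b v j = 0) →
    (∀ α α' : Fin r → ℕ, (∀ j, α j ≤ D) → (∀ j, α' j ≤ D) →
      ∑ j, α j * l j = ∑ j, α' j * l j →
      ∀ v, ∑ j, (α j : ℝ) * b v j = ∑ j, (α' j : ℝ) * b v j) →
    ∀ jj : Fin M → Fin r, (∀ v, jj v ∈ J) → ∀ B : Fin M → Fin q → ℝ,
    (∀ v i, i ∉ Z → ∀ α ∈ N i, ∑ j, ((α j : ℕ) : ℝ) * b v j ≤ B v i) →
    (((∑ i, (d i : ℤ)) + Z.card - 2 * n : ℤ) : ℝ) * ∑ v, b v (jj v) ≤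
      ∑ i ∈ Finset.univ \ Z, ∑ v, B v i

/-- algebraically independent numbers -/
theorem exists_indepQ (ι : Type) [Countable ι] : ∃ a : ι → ℂ, AlgebraicIndependent ℚ a := by
  have hk : Countable ((algebraMap ℚ ℂ).fieldRange : Subfield ℂ) := by
    have h : (((algebraMap ℚ ℂ).fieldRange : Subfield ℂ) : Set ℂ).Countable :=
      Set.countable_range _
    exact h.to_subtype
  obtain ⟨a, ha⟩ := exists_indep _ hk ι
  exact ⟨a, ha.restrictScalars (algebraMap ℚ _).injective⟩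

theorem aux_types (D : ℕ) (hD : 1 ≤ D) (d : Fin q → ℕ) (hdD : ∀ i, d i ≤ D)
    (Z : Finset (Fin q)) (hκ0 : 0 ≤ (∑ i, (d i : ℤ)) + Z.card - 2 * n)
    (hκ : (∑ i, (d i : ℤ)) + Z.card - 2 * n ≤ ∑ i ∈ Finset.univ \ Z, (d i : ℤ))
    (l : Fin r → ℕ) (N : Fin q → Finset (Fin r → Fin (D + 1))) (J : Finset (Fin r))
    (hbad : ¬ Good n D d Z l N J) (t : Fin q → ℕ) (m : Fin r → Fin (n + 1)) :
    ∃ h : MvPolynomial (CI n d) ℤ, h ≠ 0 ∧ ∀ (L : Type) [Field L]
      (F : Fin q → MvPolynomial (Fin (n + 1)) L), (∀ i, (F i).IsHomogeneous (d i)) →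
      sp d F h ≠ 0 → ∀ c : Fin r → Fin (n + 1) → L, (∀ i ∈ Z, aeval (cur c l) (F i) = 0) →
      (∀ i, i ∉ Z → ∀ t', (∀ α ∈ N i, t' ≠ ∑ j, (α j : ℕ) * l j) →
        (aeval (cur c l) (F i)).coeff t' = 0) →
      (∀ i, i ∉ Z → (aeval (cur c l) (F i)).coeff (t i) ≠ 0) →
      (∀ j ∈ J, (cur c l (m j)).coeff (l j) ≠ 0) → False := by
  classical
  obtain ⟨T, hTdef⟩ : ∃ T : BR n r d,
    T = (∏ j ∈ J, (cur (uc n r d) l (m j)).coeff (l j)) *
      ∏ i ∈ Finset.univ \ Z, (uV n r d l i).coeff (t i) := ⟨_, rfl⟩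
  let S : Set (BR n r d) := {x | ∃ i ∈ Z, ∃ t, x = (uV n r d l i).coeff t} ∪
    {x | ∃ i, i ∉ Z ∧ ∃ t', (∀ α ∈ N i, t' ≠ ∑ j, (α j : ℕ) * l j) ∧
      x = (uV n r d l i).coeff t'} ∪ {X none * T - 1}
  have : Countable (CI n d) := by unfold CI; infer_instance
  obtain ⟨a, ha⟩ := exists_indepQ (CI n d)
  have haZ : AlgebraicIndependent ℤ a := ha.restrictScalars (algebraMap ℤ ℚ).injective_int
  have key : ∀ y : Option (Fin r × Fin (n + 1)) → ℂ, ∀ p : BR n r d,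
      eval₂ (aeval a : MvPolynomial (CI n d) ℤ →ₐ[ℤ] ℂ).toRingHom y p =
        pt d (gF n d a) (fun j i => y (some (j, i))) (y none) p := by
    intro y p
    unfold pt
    rw [sp_gF, coe_eval₂Hom]
    congr 1
    funext o
    cases o <;> rfl
  obtain ⟨h, hh, hI⟩ := transfer (Ideal.span S) a haZ (by
    intro y
    by_contra hcon
    push Not at hcon
    set c : Fin r → Fin (n + 1) → ℂ := fun j i => y (some (j, i)) with hc
    have hS : ∀ x ∈ S, pt d (gF n d a) c (y none) x = 0 := fun x hx => by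
      rw [← key]
      exact hcon x (Ideal.subset_span hx)
    have hFZ : ∀ i ∈ Z, aeval (cur c l) (gF n d a i) = 0 := by
      intro i hi
      ext t
      rw [← map_uV d (gF n d a) c (y none) (gF_hom d a) l i, Polynomial.coeff_map,
        Polynomial.coeff_zero]
      exact hS _ (Or.inl (Or.inl ⟨i, hi, t, rfl⟩))
    have hFC : ∀ i, i ∉ Z → ∀ t', (∀ α ∈ N i, t' ≠ ∑ j, (α j : ℕ) * l j) →
        (aeval (cur c l) (gF n d a i)).coeff t' = 0 := by
      intro i hi t' ht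
      rw [← map_uV d (gF n d a) c (y none) (gF_hom d a) l i, Polynomial.coeff_map]
      exact hS _ (Or.inl (Or.inr ⟨i, hi, t', ht, rfl⟩))
    have hT : pt d (gF n d a) c (y none) T ≠ 0 := by
      intro h0
      have h1 := hS _ (Or.inr rfl)
      rw [map_sub, map_mul, h0, mul_zero, map_one, zero_sub, neg_eq_zero] at h1
      exact one_ne_zero h1
    rw [hTdef, map_mul, map_prod, map_prod] at hT
    have hP : ∀ i, i ∉ Z → (aeval (cur c l) (gF n d a i)).coeff (t i) ≠ 0 := by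
      intro i hi
      rw [← map_uV d (gF n d a) c (y none) (gF_hom d a) l i, Polynomial.coeff_map]
      exact (Finset.prod_ne_zero_iff.1 (right_ne_zero_of_mul hT)) i
        (Finset.mem_sdiff.2 ⟨Finset.mem_univ i, hi⟩)
    have hJ : ∀ j ∈ J, (cur c l (m j)).coeff (l j) ≠ 0 := by
      intro j hj
      rw [← map_cur d (gF n d a) c (y none) l (m j), Polynomial.coeff_map]
      exact (Finset.prod_ne_zero_iff.1 (left_ne_zero_of_mul hT)) j hj
    apply hbad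
    intro M b hb0 hb jj hjj B hB
    refine real_ineq d a ha Z D hdD hD hκ0 hκ c l hFZ (fun i hi h0 => hP i hi (by rw [h0]; simp))
      b hb0 hb jj (fun v => ⟨m (jj v), hJ _ (hjj v)⟩) B ?_
    intro v i hi α hα hαd hne
    by_cases h1 : ∃ α' ∈ N i, ∑ j, α j * l j = ∑ j, (α' j : ℕ) * l j
    · obtain ⟨α', hα', h2⟩ := h1
      rw [hb α (fun j => α' j) hα (fun j => Nat.le_of_lt_succ (α' j).2) h2 v]
      exact hB v i hi α' hα'
    · push Not at h1
      exact absurd (hFC i hi _ h1) hne)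
  refine ⟨h, hh, ?_⟩
  intro L _ F hF hsp c hZ0 hC0 ht hJ
  let τ : L := (∏ j ∈ J, (cur c l (m j)).coeff (l j)) *
    ∏ i ∈ Finset.univ \ Z, (aeval (cur c l) (F i)).coeff (t i)
  have hτ : τ ≠ 0 := mul_ne_zero (Finset.prod_ne_zero_iff.2 hJ)
    (Finset.prod_ne_zero_iff.2 fun i hi => ht i (Finset.mem_sdiff.1 hi).2)
  have hle : Ideal.span S ≤ RingHom.ker (pt d F c τ⁻¹) := by
    rw [Ideal.span_le]
    rintro x ((⟨i, hi, t, rfl⟩ | ⟨i, hi, t, ht, rfl⟩) | rfl)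
    · change pt d F c τ⁻¹ _ = 0
      rw [← Polynomial.coeff_map, map_uV d F c _ hF, hZ0 i hi, Polynomial.coeff_zero]
    · change pt d F c τ⁻¹ _ = 0
      rw [← Polynomial.coeff_map, map_uV d F c _ hF]
      exact hC0 i hi t ht
    · change pt d F c τ⁻¹ _ = 0
      have e1 : pt d F c τ⁻¹ T = τ := by
        rw [hTdef, map_mul, map_prod, map_prod]
        congr 1
        · refine Finset.prod_congr rfl fun j _ => ?_
          rw [← Polynomial.coeff_map, map_cur]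
        · refine Finset.prod_congr rfl fun i _ => ?_
          rw [← Polynomial.coeff_map, map_uV d F c _ hF]
      rw [map_sub, map_mul, pt_none, e1, inv_mul_cancel₀ hτ, map_one, sub_self]
  have h5 : pt d F c τ⁻¹ (C h) = 0 := hle hI
  rw [pt_C] at h5
  exact hsp h5

/-- coefficients for two exponent vectors with the same pattern -/
theorem coeff_transfer {L : Type} [Field L] (D : ℕ) (l l' : Fin r → ℕ) (h : pat D l = pat D l')
    (c : Fin r → Fin (n + 1) → L) (F : MvPolynomial (Fin (n + 1)) L) (e : ℕ) (he : e ≤ D)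
    (hF : F.IsHomogeneous e) (α : Fin r → ℕ) (hα : ∀ j, α j ≤ D) :
    (aeval (cur c l') F).coeff (∑ j, α j * l' j) = (aeval (cur c l) F).coeff (∑ j, α j * l j) := by
  rw [coeff_cur, coeff_cur]
  refine Finset.sum_congr rfl fun β hβ => ?_
  have hle : ∀ j, β j ≤ D := fun j => (GU_deg c F e hF β hβ j).trans he
  exact if_congr ⟨pat_imp D l' l h.symm β α hle hα, pat_imp D l l' h β α hle hα⟩ rfl rfl

theorem aux_types2 (D : ℕ) (hD : 1 ≤ D) (d : Fin q → ℕ) (hdD : ∀ i, d i ≤ D)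
    (Z : Finset (Fin q)) (hκ0 : 0 ≤ (∑ i, (d i : ℤ)) + Z.card - 2 * n)
    (hκ : (∑ i, (d i : ℤ)) + Z.card - 2 * n ≤ ∑ i ∈ Finset.univ \ Z, (d i : ℤ))
    (l : Fin r → ℕ) (N : Fin q → Finset (Fin r → Fin (D + 1))) (J : Finset (Fin r))
    (t : Fin q → ℕ) (m : Fin r → Fin (n + 1)) :
    ∃ h : MvPolynomial (CI n d) ℤ, h ≠ 0 ∧ ∀ (L : Type) [Field L]
      (F : Fin q → MvPolynomial (Fin (n + 1)) L), (∀ i, (F i).IsHomogeneous (d i)) →
      sp d F h ≠ 0 → ∀ c : Fin r → Fin (n + 1) → L, (∀ i ∈ Z, aeval (cur c l) (F i) = 0) →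
      (∀ i, i ∉ Z → ∀ t', (∀ α ∈ N i, t' ≠ ∑ j, (α j : ℕ) * l j) →
        (aeval (cur c l) (F i)).coeff t' = 0) →
      (∀ i, i ∉ Z → (aeval (cur c l) (F i)).coeff (t i) ≠ 0) →
      (∀ j ∈ J, (cur c l (m j)).coeff (l j) ≠ 0) → Good n D d Z l N J := by
  by_cases hbad : Good n D d Z l N J
  · exact ⟨1, one_ne_zero, fun L _ F _ _ c _ _ _ _ => hbad⟩
  · obtain ⟨h, h0, hh⟩ := aux_types D hD d hdD Z hκ0 hκ l N J hbad t m
    exact ⟨h, h0, fun L _ F hF hsp c h1 h2 h3 h4 => absurd (hh L F hF hsp c h1 h2 h3 h4) id⟩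

theorem GU_homL {k L : Type} [Field k] [Field L] [Algebra k L]
    (c : Fin r → Fin (n + 1) → L) (F : MvPolynomial (Fin (n + 1)) k) (e : ℕ)
    (hF : F.IsHomogeneous e) : (GU c F).IsHomogeneous e := by
  have h1 : (GU c F).IsHomogeneous (1 * e) := by
    unfold GU
    refine hF.aeval _ (fun i => ?_)
    refine MvPolynomial.IsHomogeneous.sum _ _ _ fun j _ => ?_
    simpa using (MvPolynomial.isHomogeneous_C (Fin r) (c j i)).mul
      (MvPolynomial.isHomogeneous_X L j)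
  rwa [one_mul] at h1

theorem GU_sumL {k L : Type} [Field k] [Field L] [Algebra k L]
    (c : Fin r → Fin (n + 1) → L) (F : MvPolynomial (Fin (n + 1)) k) (e : ℕ)
    (hF : F.IsHomogeneous e) (α : Fin r →₀ ℕ) (hα : α ∈ (GU c F).support) : ∑ j, α j = e := by
  have h2 := GU_homL c F e hF (mem_support_iff.1 hα)
  rw [Finsupp.weight_apply, Finsupp.sum_fintype _ _ (by simp)] at h2
  simpa using h2

/-- the data of the type of a curve with exponents `l'` -/
theorem types_aux (D : ℕ) (hD : 1 ≤ D) (d : Fin q → ℕ) (hdD : ∀ i, d i ≤ D)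
    (Z : Finset (Fin q)) (l l' : Fin r → ℕ) (hpat : pat D l = pat D l') (B0 : ℕ)
    (hB0 : D * ∑ j, l' j ≤ B0) (L : Type) [Field L]
    (F : Fin q → MvPolynomial (Fin (n + 1)) L) (hF : ∀ i, (F i).IsHomogeneous (d i))
    (c : Fin r → Fin (n + 1) → L) (hZ0 : ∀ i ∈ Z, aeval (cur c l) (F i) = 0)
    (hC0 : ∀ i, i ∉ Z → aeval (cur c l) (F i) ≠ 0)
    (P : (Fin q → Finset (Fin r → Fin (D + 1))) → Finset (Fin r) → Prop)
    (hP : ∀ (N : Fin q → Finset (Fin r → Fin (D + 1))) (J : Finset (Fin r))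
      (t : Fin q → Fin (B0 + 1)) (m : Fin r → Fin (n + 1)),
      (∀ i ∈ Z, aeval (cur c l') (F i) = 0) →
      (∀ i, i ∉ Z → ∀ t', (∀ α ∈ N i, t' ≠ ∑ j, (α j : ℕ) * l' j) →
        (aeval (cur c l') (F i)).coeff t' = 0) →
      (∀ i, i ∉ Z → (aeval (cur c l') (F i)).coeff (t i : ℕ) ≠ 0) →
      (∀ j ∈ J, (cur c l' (m j)).coeff (l' j) ≠ 0) → P N J) :
    ∃ (N : Fin q → Finset (Fin r → Fin (D + 1))) (J : Finset (Fin r)), P N J ∧
      (∀ i, ∀ α ∈ N i, ∑ j, (α j : ℕ) = d i ∧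
        (aeval (cur c l) (F i)).coeff (∑ j, (α j : ℕ) * l j) ≠ 0) ∧
      ∀ j, (∃ m, (cur c l m).coeff (l j) ≠ 0) → j ∈ J := by
  classical
  have hZ1 : ∀ i ∈ Z, aeval (cur c l') (F i) = 0 := fun i hi =>
    cur_zero_transfer D l l' hpat c (F i) (d i) (hdD i) (hF i) (hZ0 i hi)
  have hC1 : ∀ i, ∃ t : Fin (B0 + 1), i ∉ Z →
      (aeval (cur c l') (F i)).coeff (t : ℕ) ≠ 0 := by
    intro i
    by_cases hi : i ∈ Z
    · exact ⟨0, fun h => absurd hi h⟩
    · obtain ⟨t, ht⟩ : ∃ t, (aeval (cur c l) (F i)).coeff t ≠ 0 := by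
        by_contra h1
        push Not at h1
        exact hC0 i hi (Polynomial.ext h1)
      have ht' := ht
      rw [coeff_cur] at ht
      obtain ⟨α, hα, h1⟩ := Finset.exists_ne_zero_of_sum_ne_zero ht
      have h2 : ∑ j, α j * l j = t := by
        by_contra h2
        rw [if_neg h2] at h1
        exact h1 rfl
      have hle : ∀ j, α j ≤ D := fun j => (GU_deg c _ (d i) (hF i) α hα j).trans (hdD i)
      have h3 : ∑ j, α j * l' j ≤ B0 := by
        refine le_trans ?_ hB0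
        rw [Finset.mul_sum]
        exact Finset.sum_le_sum fun j _ => Nat.mul_le_mul_right _ (hle j)
      refine ⟨⟨_, Nat.lt_succ_of_le h3⟩, fun _ => ?_⟩
      simp only
      rw [coeff_transfer D l l' hpat c (F i) (d i) (hdD i) (hF i) α hle, h2]
      exact ht'
  choose t ht using hC1
  obtain ⟨N, hNdef⟩ : ∃ N : Fin q → Finset (Fin r → Fin (D + 1)), ∀ i α, α ∈ N i ↔
    ∑ j, (α j : ℕ) = d i ∧ (aeval (cur c l') (F i)).coeff (∑ j, (α j : ℕ) * l' j) ≠ 0 :=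
    ⟨fun i => Finset.univ.filter fun α => ∑ j, (α j : ℕ) = d i ∧
      (aeval (cur c l') (F i)).coeff (∑ j, (α j : ℕ) * l' j) ≠ 0, fun i α => by simp⟩
  have hN : ∀ i, i ∉ Z → ∀ t', (∀ α ∈ N i, t' ≠ ∑ j, (α j : ℕ) * l' j) →
      (aeval (cur c l') (F i)).coeff t' = 0 := by
    intro i _ t' ht'
    by_contra hne
    have hne' := hne
    rw [coeff_cur] at hne
    obtain ⟨α, hα, h1⟩ := Finset.exists_ne_zero_of_sum_ne_zero hne
    have h2 : ∑ j, α j * l' j = t' := by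
      by_contra h2
      rw [if_neg h2] at h1
      exact h1 rfl
    have hle : ∀ j, α j ≤ D := fun j => (GU_deg c _ (d i) (hF i) α hα j).trans (hdD i)
    have hsum : ∑ j, α j = d i := GU_sumL c (F i) (d i) (hF i) α hα
    have hmem : (fun j => (⟨α j, Nat.lt_succ_of_le (hle j)⟩ : Fin (D + 1))) ∈ N i := by
      rw [hNdef]
      refine ⟨hsum, ?_⟩
      show (aeval (cur c l') (F i)).coeff (∑ j, α j * l' j) ≠ 0
      rw [h2]
      exact hne'
    exact ht' _ hmem h2.symm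
  obtain ⟨J, hJdef⟩ : ∃ J : Finset (Fin r), ∀ j, j ∈ J ↔ ∃ m, (cur c l' m).coeff (l' j) ≠ 0 :=
    ⟨Finset.univ.filter fun j => ∃ m, (cur c l' m).coeff (l' j) ≠ 0, fun j => by simp⟩
  have hJc : ∀ j m, (cur c l' m).coeff (l' j) = (cur c l m).coeff (l j) := by
    intro j m
    have h1 := coeff_transfer D l l' hpat c (X m : MvPolynomial (Fin (n + 1)) L) 1 hD
      (isHomogeneous_X L m) (fun j' => if j' = j then 1 else 0)
      (fun j' => by split_ifs <;> omega)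
    simpa using h1
  have hm : ∀ j, ∃ m, j ∈ J → (cur c l' m).coeff (l' j) ≠ 0 := by
    intro j
    by_cases hj : j ∈ J
    · obtain ⟨m, hm⟩ := (hJdef j).1 hj
      exact ⟨m, fun _ => hm⟩
    · exact ⟨0, fun h => absurd h hj⟩
  choose m hm using hm
  refine ⟨N, J, hP N J t m hZ1 hN (fun i hi => ht i hi) (fun j hj => hm j hj),
    fun i α hα => ?_, fun j hj => ?_⟩
  · have h1 := (hNdef i α).1 hα
    refine ⟨h1.1, ?_⟩
    rw [← coeff_transfer D l l' hpat c (F i) (d i) (hdD i) (hF i) _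
      fun j => Nat.le_of_lt_succ (α j).2]
    exact h1.2
  · obtain ⟨m, hm⟩ := hj
    exact (hJdef j).2 ⟨m, by rwa [hJc]⟩

/-- **The inequality for real weights, outside a hypersurface of the parameter space.** -/
theorem types (D : ℕ) (hD : 1 ≤ D) (d : Fin q → ℕ) (hdD : ∀ i, d i ≤ D)
    (Z : Finset (Fin q)) (hκ0 : 0 ≤ (∑ i, (d i : ℤ)) + Z.card - 2 * n)
    (hκ : (∑ i, (d i : ℤ)) + Z.card - 2 * n ≤ ∑ i ∈ Finset.univ \ Z, (d i : ℤ)) (r : ℕ) :
    ∃ h : MvPolynomial (CI n d) ℤ, h ≠ 0 ∧ ∀ (L : Type) [Field L]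
      (F : Fin q → MvPolynomial (Fin (n + 1)) L), (∀ i, (F i).IsHomogeneous (d i)) →
      sp d F h ≠ 0 → ∀ (c : Fin r → Fin (n + 1) → L) (l : Fin r → ℕ),
      (∀ i ∈ Z, aeval (cur c l) (F i) = 0) → (∀ i, i ∉ Z → aeval (cur c l) (F i) ≠ 0) →
      ∀ (M : ℕ) (b : Fin M → Fin r → ℝ), (∀ j, ∑ v, b v j = 0) →
      (∀ α α' : Fin r → ℕ, (∀ j, α j ≤ D) → (∀ j, α' j ≤ D) →
        ∑ j, α j * l j = ∑ j, α' j * l j →
        ∀ v, ∑ j, (α j : ℝ) * b v j = ∑ j, (α' j : ℝ) * b v j) →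
      ∀ jj : Fin M → Fin r, (∀ v, ∃ m, (cur c l m).coeff (l (jj v)) ≠ 0) →
      ∀ B : Fin M → Fin q → ℝ,
      (∀ v i, i ∉ Z → ∀ α : Fin r → ℕ, (∀ j, α j ≤ D) → ∑ j, α j = d i →
        (aeval (cur c l) (F i)).coeff (∑ j, α j * l j) ≠ 0 → ∑ j, (α j : ℝ) * b v j ≤ B v i) →
      (((∑ i, (d i : ℤ)) + Z.card - 2 * n : ℤ) : ℝ) * ∑ v, b v (jj v) ≤
        ∑ i ∈ Finset.univ \ Z, ∑ v, B v i := by
  classical
  obtain ⟨B0, hB0⟩ := pat_rep_bound (r := r) D
  choose H hH0 hH using fun (p : Set ((Fin r → Fin (D + 1)) × (Fin r → Fin (D + 1)))) 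
    (N : Fin q → Finset (Fin r → Fin (D + 1))) (J : Finset (Fin r)) (t : Fin q → Fin (B0 + 1))
    (m : Fin r → Fin (n + 1)) =>
    aux_types2 D hD d hdD Z hκ0 hκ (rep D p) N J (fun i => (t i : ℕ)) m
  refine ⟨∏ p, ∏ N, ∏ J, ∏ t, ∏ m, H p N J t m, ?_, ?_⟩
  · simp only [Finset.prod_ne_zero_iff]
    exact fun p _ N _ J _ t _ m _ => hH0 p N J t m
  intro L _ F hF hsp c l hZ0 hC0 M b hb0 hb jj hjj B hB
  have hpat : pat D l = pat D (rep D (pat D l)) := (pat_rep D l).symm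
  obtain ⟨N, J, hgood, hN, hJ⟩ := types_aux D hD d hdD Z l (rep D (pat D l)) hpat B0 (hB0 _) L F hF c
    hZ0 hC0 (Good n D d Z (rep D (pat D l))) (by
      intro N J t m h1 h2 h3 h4
      refine hH (pat D l) N J t m L F hF (fun h0 => hsp ?_) c h1 h2 h3 h4
      rw [map_prod]
      refine Finset.prod_eq_zero (Finset.mem_univ (pat D l)) ?_
      rw [map_prod]
      refine Finset.prod_eq_zero (Finset.mem_univ N) ?_
      rw [map_prod]
      refine Finset.prod_eq_zero (Finset.mem_univ J) ?_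
      rw [map_prod]
      refine Finset.prod_eq_zero (Finset.mem_univ t) ?_
      rw [map_prod]
      exact Finset.prod_eq_zero (Finset.mem_univ m) h0)
  refine hgood M b hb0 (fun α α' hα hα' hαα v => hb α α' hα hα' ?_ v) jj (fun v => hJ _ (hjj v)) B
    (fun v i hi α hα => ?_)
  · exact pat_imp D _ l hpat.symm α α' hα hα' hαα
  · have h1 := hN i α hα
    exact hB v i hi (fun j => α j) (fun j => Nat.le_of_lt_succ (α j).2) h1.1 h1.2

end Pool.Agent.Q51.VX
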