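import Mathlib
import Pool.Agent.Q51.VX.Ind
import Pool.Agent.Q51.VX.Types
import Pool.Agent.Q51.HG.Arith

set_option autoImplicit false

/-!
# The inequality for the forms outside a hypersurface of the parameter space
-/

namespace Pool.Agent.Q51.VX

open MvPolynomial Filter Topology Pool.Agent.TH932.Germs Pool.Agent.TH551.SU
open Pool.Agent.TH551.SU.SUI Pool.Agent.Y724.Vj Pool.Agent.TH551.SU.CRV
open Pool.Agent.H533R3.SL Pool.Agent.Q51.HG
open Pool.Agent.TH182.VD (CI)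

variable {n q : ℕ}

/-- the inequality for weights, for the forms over the rational numbers outside a hypersurface -/
theorem typeIneq_of (D : ℕ) (hD : 1 ≤ D) (d : Fin q → ℕ) (hdD : ∀ i, d i ≤ D)
    (Z : Finset (Fin q)) (hκ0 : 0 ≤ (∑ i, (d i : ℤ)) + Z.card - 2 * n)
    (hκ : (∑ i, (d i : ℤ)) + Z.card - 2 * n ≤ ∑ i ∈ Finset.univ \ Z, (d i : ℤ)) (r : ℕ) :
    ∃ h : MvPolynomial (CI n d) ℤ, h ≠ 0 ∧ ∀ F : Fin q → MvPolynomial (Fin (n + 1)) ℚ,
      (∀ i, (F i).IsHomogeneous (d i)) → sp d F h ≠ 0 → ∀ r' ≤ r,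
      TypeIneq (((∑ i, (d i : ℤ)) + Z.card - 2 * n : ℤ) : ℝ) D d Z F r' := by
  classical
  choose H hH0 hH using fun r' : ℕ => types D hD d hdD Z hκ0 hκ r'
  refine ⟨∏ r' ∈ Finset.range (r + 1), H r', Finset.prod_ne_zero_iff.2 fun r' _ => hH0 r', ?_⟩
  intro F hF hsp r' hr' c l h1 h2 M β h3 h4 jj h5 B h6
  rw [map_prod, Finset.prod_ne_zero_iff] at hsp
  have hsp' := hsp r' (Finset.mem_range.2 (Nat.lt_succ_of_le hr'))
  have hmap : ∀ i, aeval (cur c l) (map (algebraMap ℚ GG) (F i)) = aeval (cur c l) (F i) := by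
    intro i
    rw [aeval_def, aeval_def, eval₂_map]
    congr 1
  refine hH r' GG (fun i => map (algebraMap ℚ GG) (F i)) (fun i => (hF i).map _) ?_ c l
    (fun i hi => by rw [hmap, h1 i hi]) (fun i hi => by rw [hmap]; exact h2 i hi) M β h3 h4 jj h5 B
    (fun v i hi α hα hαd hne => h6 v i hi α hα hαd (by rwa [hmap] at hne))
  rw [sp_map]
  exact (map_ne_zero _).2 hsp'

/-- multiples -/
theorem TypeIneq.smul {κ : ℝ} {D : ℕ} {d : Fin q → ℕ} {Z : Finset (Fin q)}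
    {F G : Fin q → MvPolynomial (Fin (n + 1)) ℚ} {r : ℕ} (h : TypeIneq κ D d Z F r)
    (a : Fin q → ℚ) (ha : ∀ i, a i ≠ 0) (hG : ∀ i, G i = C (a i) * F i) :
    TypeIneq κ D d Z G r := by
  have hev : ∀ (c : Fin r → Fin (n + 1) → GG) (l : Fin r → ℕ) (i : Fin q),
      aeval (cur c l) (G i) = Polynomial.C (algebraMap ℚ GG (a i)) * aeval (cur c l) (F i) := by
    intro c l i
    rw [hG, map_mul, ← MvPolynomial.algebraMap_eq, AlgHom.commutes]
    rfl
  have ha' : ∀ i, algebraMap ℚ GG (a i) ≠ 0 := fun i => (map_ne_zero _).2 (ha i)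
  intro c l h1 h2 M β h3 h4 jj h5 B h6
  refine h c l (fun i hi => ?_) (fun i hi h0 => h2 i hi (by rw [hev, h0, mul_zero])) M β h3 h4 jj h5
    B (fun v i hi α hα hαd hne => h6 v i hi α hα hαd ?_)
  · have := h1 i hi
    rw [hev] at this
    exact (mul_eq_zero.1 this).resolve_left (Polynomial.C_ne_zero.2 (ha' i))
  · rw [hev, Polynomial.coeff_C_mul]
    exact mul_ne_zero (ha' i) hne

/-- common denominators -/
theorem exists_int (F : MvPolynomial (Fin (n + 1)) ℚ) : ∃ (N : ℕ) (G : MvPolynomial (Fin (n + 1)) ℤ),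
    0 < N ∧ map (Int.castRingHom ℚ) G = C (N : ℚ) * F := by
  classical
  obtain ⟨N, hN⟩ : ∃ N : ℕ, N = ∏ α ∈ F.support, (coeff α F).den := ⟨_, rfl⟩
  refine ⟨N, ∑ α ∈ F.support, monomial α ((coeff α F).num *
      ∏ β ∈ F.support.erase α, ((coeff β F).den : ℤ)), ?_, ?_⟩
  · rw [hN]
    exact Finset.prod_pos fun α _ => Rat.pos _
  have h0 : C (N : ℚ) * F = ∑ α ∈ F.support, monomial α ((N : ℚ) * coeff α F) := by
    conv_lhs => rw [F.as_sum, Finset.mul_sum]
    exact Finset.sum_congr rfl fun α _ => C_mul_monomial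
  rw [h0, map_sum]
  refine Finset.sum_congr rfl fun α hα => ?_
  rw [map_monomial]
  congr 1
  rw [hN, ← Finset.mul_prod_erase _ _ hα]
  have h1 : (((coeff α F).num : ℤ) : ℚ) = coeff α F * (coeff α F).den := (Rat.mul_den_eq_num _).symm
  simp only [eq_intCast, Int.cast_mul, Int.cast_prod, Int.cast_natCast, Nat.cast_mul,
    Nat.cast_prod]
  rw [h1]
  ring

/-- the sum of the logarithms of the absolute values of a nonzero integer is not negative -/
theorem sum_log_nonneg {s : ℕ} (b : Fin s → ℕ) (hb : ∀ v, (b v).Prime)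
    (hbi : Function.Injective b) (z : ℤ) (hz : z ≠ 0) :
    0 ≤ ∑ v, Real.log (wv b hb v (z : ℚ)) := by
  classical
  rw [Fintype.sum_option]
  have h1 : ∀ v : Fin s, Real.log (wv b hb (some v) (z : ℚ)) =
      -(padicValInt (b v) z * Real.log (b v)) := by
    intro v
    rw [wv_some_int b hb v z hz, Real.log_inv, Real.log_pow]
  rw [Finset.sum_congr rfl fun v _ => h1 v, Finset.sum_neg_distrib, wv_none]
  have h2 : ((∏ v, b v ^ padicValInt (b v) z : ℕ) : ℤ) ∣ z := by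
    push_cast
    apply Finset.prod_dvd_of_coprime
    · intro v _ v' _ hvv'
      exact (Nat.isCoprime_iff_coprime.2 ((Nat.coprime_primes (hb v) (hb v')).2
        fun h => hvv' (hbi h))).pow
    · intro v _
      exact padicValInt_dvd _
  have h3 := Int.le_of_dvd (abs_pos.2 hz) ((dvd_abs _ _).2 h2)
  have h4 : ((∏ v, b v ^ padicValInt (b v) z : ℕ) : ℝ) ≤ |(z : ℝ)| := by exact_mod_cast h3
  have h5 : (0 : ℝ) < ((∏ v, b v ^ padicValInt (b v) z : ℕ) : ℝ) := by
    exact_mod_cast Finset.prod_pos fun v _ => pow_pos (hb v).pos _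
  have h6 := Real.log_le_log h5 h4
  have h7 : Real.log ((∏ v, b v ^ padicValInt (b v) z : ℕ) : ℝ) =
      ∑ v, (padicValInt (b v) z : ℝ) * Real.log (b v) := by
    push_cast
    rw [Real.log_prod]
    · exact Finset.sum_congr rfl fun v _ => Real.log_pow _ _
    · intro v _
      have := (hb v).pos
      positivity
  rw [h7] at h6
  have h8 : |((z : ℚ) : ℝ)| = |(z : ℝ)| := by simp
  rw [h8]
  linarith

/-- **The inequality of heights for the points of general pairs that are short sums.** -/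
theorem pairs (d : Fin q → ℕ) (Z : Finset (Fin q)) (hZ : ∑ c ∈ Z, (d c + 1) ≤ 2 * n) (r : ℕ) :
    ∃ h : MvPolynomial (CI n d) ℤ, h ≠ 0 ∧ ∀ F : Fin q → MvPolynomial (Fin (n + 1)) ℚ,
      (∀ i, (F i).IsHomogeneous (d i)) → sp d F h ≠ 0 → ∀ (s : ℕ) (b : Fin s → ℕ)
      (hb : ∀ v, (b v).Prime), Function.Injective b → ∀ B ε : ℝ, 1 ≤ B → 0 < ε →
      ∃ δ C0 : ℝ, 0 < δ ∧ ∀ x : Fin (n + 1) → ℤ, Finset.univ.gcd x = 1 →
        (∀ i ∈ Z, eval (fun y => (x y : ℚ)) (F i) = 0) →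
        (∀ i, i ∉ Z → eval (fun y => (x y : ℚ)) (F i) ≠ 0) → Short1 b r B δ x →
        ∑ i ∈ Finset.univ \ Z, ((d i : ℝ) * Real.log (hh x) -
          ∑ v, Real.log (wv b hb v (eval (fun y => (x y : ℚ)) (F i)))) ≤
          (2 * n - ∑ c ∈ Z, ((d c : ℝ) + 1) + ε) * Real.log (hh x) + C0 := by
  classical
  have hsplit : (∑ i, (d i : ℤ)) = ∑ i ∈ Z, (d i : ℤ) + ∑ i ∈ Finset.univ \ Z, (d i : ℤ) := by
    rw [add_comm, Finset.sum_sdiff (Finset.subset_univ Z)]
  have hZ' : ∑ c ∈ Z, ((d c : ℤ) + 1) ≤ 2 * n := by exact_mod_cast hZ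
  have hZs : ∑ c ∈ Z, ((d c : ℤ) + 1) = ∑ c ∈ Z, (d c : ℤ) + Z.card := by
    rw [Finset.sum_add_distrib, Finset.sum_const, nsmul_eq_mul, mul_one]
  set κ : ℤ := (∑ i, (d i : ℤ)) + Z.card - 2 * n with hκdef
  have hκ : κ ≤ ∑ i ∈ Finset.univ \ Z, (d i : ℤ) := by
    rw [hκdef, hsplit]
    linarith
  set D : ℕ := ∑ i, d i + 1 with hD
  have hdD : ∀ i, d i ≤ D := fun i =>
    (Finset.single_le_sum (f := d) (fun _ _ => Nat.zero_le _) (Finset.mem_univ i)).trans
      (Nat.le_succ _)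
  -- reduction
  have hκr : (2 * n - ∑ c ∈ Z, ((d c : ℝ) + 1)) = ∑ i ∈ Finset.univ \ Z, (d i : ℝ) - κ := by
    have h1 : (2 * n - ∑ c ∈ Z, ((d c : ℤ) + 1)) = ∑ i ∈ Finset.univ \ Z, (d i : ℤ) - κ := by
      rw [hκdef, hsplit, hZs]
      ring
    exact_mod_cast h1
  -- the constants
  have hred : ∀ (F : Fin q → MvPolynomial (Fin (n + 1)) ℚ) (N : Fin q → ℕ)
      (G : Fin q → MvPolynomial (Fin (n + 1)) ℤ), (∀ i, 0 < N i) →
      (∀ i, map (Int.castRingHom ℚ) (G i) = C (N i : ℚ) * F i) → ∀ (s : ℕ) (b : Fin s → ℕ)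
      (hb : ∀ v, (b v).Prime) (x : Fin (n + 1) → ℤ),
      (∀ i, eval (fun y => (x y : ℚ)) (F i) = 0 ↔ eval x (G i) = 0) ∧
      ∀ i, eval x (G i) ≠ 0 → ∀ v, Real.log (wv b hb v ((eval x (G i) : ℤ) : ℚ)) =
        Real.log (wv b hb v (N i : ℚ)) +
          Real.log (wv b hb v (eval (fun y => (x y : ℚ)) (F i))) := by
    intro F N G hN hG s b hb x
    have h1 : ∀ i, ((eval x (G i) : ℤ) : ℚ) = N i * eval (fun y => (x y : ℚ)) (F i) := by
      intro i
      have h2 := congrArg (eval (fun y => (x y : ℚ))) (hG i)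
      rw [map_mul, eval_C] at h2
      rw [← h2, eval_map]
      exact (evi_cast x (G i)).symm
    have hN' : ∀ i, (N i : ℚ) ≠ 0 := fun i => by exact_mod_cast (hN i).ne'
    refine ⟨fun i => ?_, fun i hi v => ?_⟩
    · constructor
      · intro h
        have h2 := h1 i
        rw [h, mul_zero] at h2
        exact_mod_cast h2
      · intro h
        have h2 := h1 i
        rw [h, Int.cast_zero] at h2
        exact (mul_eq_zero.1 h2.symm).resolve_left (hN' i)
    · have h3 : eval (fun y => (x y : ℚ)) (F i) ≠ 0 := by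
        intro h0
        have h2 := h1 i
        rw [h0, mul_zero] at h2
        exact hi (by exact_mod_cast h2)
      rw [h1, map_mul, Real.log_mul ((wv b hb v).ne_zero (hN' i)) ((wv b hb v).ne_zero h3)]
  by_cases hκ0 : 0 ≤ κ
  · obtain ⟨h, h0, hh1⟩ := typeIneq_of D (by omega) d hdD Z hκ0 hκ r
    refine ⟨h, h0, fun F hF hsp s b hb hbi B ε hB hε => ?_⟩
    choose N G hN hG using fun i => exists_int (F i)
    have hN' : ∀ i, (N i : ℚ) ≠ 0 := fun i => by exact_mod_cast (hN i).ne'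
    have hGh : ∀ i, (G i).IsHomogeneous (d i) := by
      intro i
      have h1 : (map (Int.castRingHom ℚ) (G i)).IsHomogeneous (d i) := by
        rw [hG]
        simpa using (isHomogeneous_C (Fin (n + 1)) (N i : ℚ)).mul (hF i)
      intro α hα
      apply h1
      rw [coeff_map]
      simpa using hα
    obtain ⟨δ, C0, hδ, hQQ⟩ := all_QQ b hb hbi D (by omega) d hdD Z (κ : ℝ)
      (by exact_mod_cast hκ0) G hGh B hB ε hε r
      (fun r' hr' => (hh1 F hF hsp r' hr').smul (fun i => (N i : ℚ)) hN' hG)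
    refine ⟨δ, C0 + ∑ i ∈ Finset.univ \ Z, ∑ v, Real.log (wv b hb v (N i : ℚ)), hδ,
      fun x hprim hxZ hxC hsh => ?_⟩
    obtain ⟨e1, e2⟩ := hred F N G hN hG s b hb x
    have hGC : ∀ i, i ∉ Z → eval x (G i) ≠ 0 := fun i hi h => hxC i hi ((e1 i).2 h)
    have h2 := hQQ x hprim (fun i hi => (e1 i).1 (hxZ i hi)) hGC hsh
    have h3 : ∑ i ∈ Finset.univ \ Z, ∑ v, Real.log (wv b hb v ((eval x (G i) : ℤ) : ℚ)) =
        ∑ i ∈ Finset.univ \ Z, ∑ v, Real.log (wv b hb v (N i : ℚ)) +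
          ∑ i ∈ Finset.univ \ Z, ∑ v,
            Real.log (wv b hb v (eval (fun y => (x y : ℚ)) (F i))) := by
      rw [← Finset.sum_add_distrib]
      refine Finset.sum_congr rfl fun i hi => ?_
      rw [← Finset.sum_add_distrib]
      exact Finset.sum_congr rfl fun v _ => e2 i (hGC i (Finset.mem_sdiff.1 hi).2) v
    rw [h3] at h2
    rw [Finset.sum_sub_distrib, ← Finset.sum_mul, hκr]
    linarith
  · push Not at hκ0
    refine ⟨1, one_ne_zero, fun F hF hsp s b hb hbi B ε hB hε => ?_⟩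
    choose N G hN hG using fun i => exists_int (F i)
    refine ⟨1, ∑ i ∈ Finset.univ \ Z, ∑ v, Real.log (wv b hb v (N i : ℚ)), one_pos,
      fun x hprim hxZ hxC hsh => ?_⟩
    obtain ⟨e1, e2⟩ := hred F N G hN hG s b hb x
    have hGC : ∀ i, i ∉ Z → eval x (G i) ≠ 0 := fun i hi h => hxC i hi ((e1 i).2 h)
    have h3 : ∑ i ∈ Finset.univ \ Z, ∑ v, Real.log (wv b hb v ((eval x (G i) : ℤ) : ℚ)) =
        ∑ i ∈ Finset.univ \ Z, ∑ v, Real.log (wv b hb v (N i : ℚ)) +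
          ∑ i ∈ Finset.univ \ Z, ∑ v,
            Real.log (wv b hb v (eval (fun y => (x y : ℚ)) (F i))) := by
      rw [← Finset.sum_add_distrib]
      refine Finset.sum_congr rfl fun i hi => ?_
      rw [← Finset.sum_add_distrib]
      exact Finset.sum_congr rfl fun v _ => e2 i (hGC i (Finset.mem_sdiff.1 hi).2) v
    have h4 : 0 ≤ ∑ i ∈ Finset.univ \ Z, ∑ v, Real.log (wv b hb v ((eval x (G i) : ℤ) : ℚ)) :=
      Finset.sum_nonneg fun i hi => sum_log_nonneg b hb hbi _ (hGC i (Finset.mem_sdiff.1 hi).2)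
    rw [h3] at h4
    have hlog : 0 ≤ Real.log (hh x) := Real.log_nonneg (by exact_mod_cast hh_pos x hprim)
    have hκ1 : (κ : ℝ) ≤ 0 := by exact_mod_cast hκ0.le
    rw [Finset.sum_sub_distrib, ← Finset.sum_mul, hκr]
    nlinarith [mul_nonneg (show (0 : ℝ) ≤ ε - κ by linarith) hlog]

end Pool.Agent.Q51.VX
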